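import Mathlib

/-!
A C*-algebra built over the binary tree: `A` is generated by `c_0(T; M)` and by projections `p_x`,
`x` a branch of the binary tree `T`, where `p_x` is supported on the branch `x` and its value at the
node `x|n` depends on the next digit `x n`.
-/

namespace Pool.Agent.Helper40.Hered

noncomputable section

open Filter Topology
open scoped ENNReal

/-- Branches of the binary tree. -/
abbrev Br : Type := ℕ → Bool

/-- Nodes of the binary tree. -/
abbrev Nd : Type := Σ n : ℕ, (Fin n → Bool)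

/-- The node of level `n` on the branch `x`. -/
def nd (x : Br) (n : ℕ) : Nd := ⟨n, fun i => x i⟩

@[simp] theorem nd_fst (x : Br) (n : ℕ) : (nd x n).1 = n := rfl

theorem nd_injective (x : Br) : Function.Injective (nd x) := fun m n h => by
  have := congrArg Sigma.fst h
  simpa using this

theorem nd_eq_iff {x y : Br} {n : ℕ} : nd x n = nd y n ↔ ∀ i < n, x i = y i := by
  constructor
  · intro h i hi
    have h1 : (fun i : Fin n => x i) = fun i : Fin n => y i := by
      have := (Sigma.mk.inj_iff.1 h).2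
      exact eq_of_heq this
    exact congrFun h1 ⟨i, hi⟩
  · intro h
    have h1 : (fun i : Fin n => x i) = fun i : Fin n => y i := by
      funext i
      exact h i i.2
    unfold nd
    rw [h1]

/-- Two distinct branches share only finitely many nodes. -/
theorem finite_common {x y : Br} (hxy : x ≠ y) :
    {s : Nd | s = nd x s.1 ∧ s = nd y s.1}.Finite := by
  obtain ⟨k, hk⟩ : ∃ k, x k ≠ y k := by
    by_contra hcon
    push Not at hcon
    exact hxy (funext hcon)
  refine ((Set.finite_Iic k).image (nd x)).subset ?_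
  rintro s ⟨h1, h2⟩
  refine ⟨s.1, ?_, h1.symm⟩
  by_contra hcon
  have hlt : k < s.1 := by
    simpa using hcon
  exact hk (nd_eq_iff.1 (h1.symm.trans h2) k hlt)

theorem exists_split {x y : Br} (hxy : x ≠ y) :
    ∃ n, nd x n = nd y n ∧ x n ≠ y n := by
  classical
  have h : ∃ k, x k ≠ y k := by
    by_contra hcon
    push Not at hcon
    exact hxy (funext hcon)
  refine ⟨Nat.find h, ?_, Nat.find_spec h⟩
  rw [nd_eq_iff]
  intro i hi
  by_contra hne
  exact Nat.find_min h hi hne

section Alg

variable {M : Type} [CStarAlgebra M] (P : Bool → M)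

/-- Bounded functions on the tree. -/
abbrev LT (M : Type) [CStarAlgebra M] : Type := lp (fun _ : Nd => M) ∞

/-- Bounded functions on the branches. -/
abbrev LB : Type := lp (fun _ : Br => ℂ) ∞

/-- The ambient C*-algebra. -/
abbrev Amb (M : Type) [CStarAlgebra M] : Type := LT M × LB

omit [CStarAlgebra M] in
theorem memlp_of_bound {ι : Type} {E : ι → Type} [∀ i, NormedAddCommGroup (E i)] (u : ∀ i, E i)
    (C : ℝ) (hu : ∀ i, ‖u i‖ ≤ C) : Memℓp u ∞ :=
  memℓp_infty ⟨C, by rintro _ ⟨i, rfl⟩; exact hu i⟩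

open Classical in
def pfun (x : Br) (s : Nd) : M := if s = nd x s.1 then P (x s.1) else 0

theorem pfun_nd (x : Br) (n : ℕ) : pfun P x (nd x n) = P (x n) := by
  simp [pfun]

theorem pfun_ne {x : Br} {s : Nd} (h : s ≠ nd x s.1) : pfun P x s = 0 := by
  simp [pfun, h]

/-- norm bound for the two projections -/
def PB : ℝ := ‖P false‖ + ‖P true‖

theorem P_le_PB (i : Bool) : ‖P i‖ ≤ PB P := by
  unfold PB
  cases i
  · linarith [norm_nonneg (P true)]
  · linarith [norm_nonneg (P false)]

theorem PB_nonneg : 0 ≤ PB P := by unfold PB; positivity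

theorem norm_pfun_le (x : Br) (s : Nd) : ‖pfun P x s‖ ≤ PB P := by
  unfold pfun
  split_ifs
  · exact P_le_PB P _
  · rw [norm_zero]; exact PB_nonneg P

/-- the generator `p_x` in `ℓ^∞(T; M)` -/
def pel (x : Br) : LT M := ⟨pfun P x, memlp_of_bound _ _ (norm_pfun_le P x)⟩

theorem pel_apply (x : Br) (s : Nd) : (pel P x : LT M) s = pfun P x s := rfl

/-- The ideal `c_0(T; M)`. -/
def J (M : Type) [CStarAlgebra M] : Submodule ℂ (LT M) where
  carrier := {a | Tendsto (fun s => (a : LT M) s) cofinite (𝓝 0)}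
  add_mem' := by
    intro a b ha hb
    have := Tendsto.add ha hb
    rw [add_zero] at this
    exact this
  zero_mem' := by
    show Tendsto (fun s => ((0 : LT M)) s) cofinite (𝓝 0)
    simp only [lp.coeFn_zero, Pi.zero_apply]
    exact tendsto_const_nhds
  smul_mem' := by
    intro c a ha
    have := Tendsto.const_smul ha c
    rw [smul_zero] at this
    exact this

theorem mem_J {a : LT M} : a ∈ J M ↔ Tendsto (fun s => (a : LT M) s) cofinite (𝓝 0) := Iff.rfl

theorem J_mul_right {a b : LT M} (ha : a ∈ J M) : a * b ∈ J M := by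
  rw [mem_J] at ha ⊢
  rw [tendsto_zero_iff_norm_tendsto_zero] at ha ⊢
  have h1 := ha.mul_const ‖b‖
  rw [zero_mul] at h1
  refine squeeze_zero (fun s => norm_nonneg _) (fun s => ?_) h1
  rw [lp.infty_coeFn_mul, Pi.mul_apply]
  refine (norm_mul_le _ _).trans ?_
  gcongr
  exact lp.norm_apply_le_norm (by norm_num) b s

theorem J_mul_left {a b : LT M} (hb : b ∈ J M) : a * b ∈ J M := by
  rw [mem_J] at hb ⊢
  rw [tendsto_zero_iff_norm_tendsto_zero] at hb ⊢
  have h1 := hb.const_mul ‖a‖
  rw [mul_zero] at h1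
  refine squeeze_zero (fun s => norm_nonneg _) (fun s => ?_) h1
  rw [lp.infty_coeFn_mul, Pi.mul_apply]
  refine (norm_mul_le _ _).trans ?_
  gcongr
  exact lp.norm_apply_le_norm (by norm_num) a s

theorem J_star {a : LT M} (ha : a ∈ J M) : star a ∈ J M := by
  rw [mem_J] at ha ⊢
  rw [tendsto_zero_iff_norm_tendsto_zero] at ha ⊢
  refine ha.congr fun s => ?_
  rw [lp.star_apply, norm_star]

theorem J_of_finite {a : LT M} (S : Set Nd) (hS : S.Finite) (ha : ∀ s ∉ S, (a : LT M) s = 0) :
    a ∈ J M := by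
  rw [mem_J]
  refine tendsto_const_nhds.congr' ?_
  filter_upwards [hS.compl_mem_cofinite] with s hs
  exact (ha s hs).symm

/-- finite combinations of the `p_x` -/
def Phi : (Br →₀ ℂ) →ₗ[ℂ] LT M := Finsupp.linearCombination ℂ (pel P)

theorem Phi_single (x : Br) (c : ℂ) : Phi P (Finsupp.single x c) = c • pel P x := by
  simp [Phi]

theorem Phi_mul (hidem : ∀ i, P i * P i = P i) (u v : Br →₀ ℂ) :
    Phi P u * Phi P v - Phi P (u * v) ∈ J M := by
  classical
  induction u using Finsupp.induction_linear with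
  | zero => simp
  | add u1 u2 h1 h2 =>
    have : Phi P (u1 + u2) * Phi P v - Phi P ((u1 + u2) * v) =
        (Phi P u1 * Phi P v - Phi P (u1 * v)) + (Phi P u2 * Phi P v - Phi P (u2 * v)) := by
      rw [map_add, add_mul, add_mul, map_add]; abel
    rw [this]
    exact (J M).add_mem h1 h2
  | single x c =>
    induction v using Finsupp.induction_linear with
    | zero => simp
    | add v1 v2 h1 h2 =>
      have : Phi P (Finsupp.single x c) * Phi P (v1 + v2) -
          Phi P (Finsupp.single x c * (v1 + v2)) =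
          (Phi P (Finsupp.single x c) * Phi P v1 - Phi P (Finsupp.single x c * v1)) +
          (Phi P (Finsupp.single x c) * Phi P v2 - Phi P (Finsupp.single x c * v2)) := by
        rw [map_add, mul_add, mul_add, map_add]; abel
      rw [this]
      exact (J M).add_mem h1 h2
    | single y d =>
      by_cases hxy : x = y
      · subst hxy
        have h1 : Phi P (Finsupp.single x c) * Phi P (Finsupp.single x d) -
            Phi P (Finsupp.single x c * Finsupp.single x d) = 0 := by
          have h2 : (Finsupp.single x c : Br →₀ ℂ) * Finsupp.single x d =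
              Finsupp.single x (c * d) := by
            ext z
            rw [Finsupp.mul_apply, Finsupp.single_apply, Finsupp.single_apply,
              Finsupp.single_apply]
            split_ifs <;> simp
          rw [h2, Phi_single, Phi_single, Phi_single, sub_eq_zero]
          apply lp.ext
          funext s
          rw [lp.infty_coeFn_mul, Pi.mul_apply, lp.coeFn_smul, lp.coeFn_smul, lp.coeFn_smul,
            Pi.smul_apply, Pi.smul_apply, Pi.smul_apply, pel_apply]
          rw [smul_mul_smul_comm]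
          congr 1
          by_cases hs : s = nd x s.1
          · rw [hs, pfun_nd, hidem]
          · rw [pfun_ne P hs, mul_zero]
        rw [h1]
        exact (J M).zero_mem
      · have h2 : (Finsupp.single x c : Br →₀ ℂ) * Finsupp.single y d = 0 := by
          ext z
          rw [Finsupp.mul_apply, Finsupp.single_apply, Finsupp.single_apply]
          by_cases h3 : x = z
          · have h4 : y ≠ z := fun h => hxy (h3.trans h.symm)
            simp [h4]
          · simp [h3]
        rw [h2, map_zero, sub_zero, Phi_single, Phi_single]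
        apply J_of_finite _ (finite_common hxy)
        intro s hs
        rw [lp.infty_coeFn_mul, Pi.mul_apply, lp.coeFn_smul, lp.coeFn_smul,
          Pi.smul_apply, Pi.smul_apply, pel_apply, pel_apply]
        by_cases h5 : s = nd x s.1
        · have h6 : s ≠ nd y s.1 := fun h => hs ⟨h5, h⟩
          rw [pfun_ne P h6, smul_zero, mul_zero]
        · rw [pfun_ne P h5, smul_zero, zero_mul]

/-- conjugation of finitely supported functions -/
def cstar (u : Br →₀ ℂ) : Br →₀ ℂ := u.mapRange (starRingEnd ℂ) (map_zero _)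

theorem cstar_add (u v : Br →₀ ℂ) : cstar (u + v) = cstar u + cstar v := by
  ext z; simp [cstar]

theorem Phi_star (hsa : ∀ i, star (P i) = P i) (u : Br →₀ ℂ) :
    star (Phi P u) = Phi P (cstar u) := by
  classical
  induction u using Finsupp.induction_linear with
  | zero =>
    have : cstar (0 : Br →₀ ℂ) = 0 := by ext z; simp [cstar]
    rw [this, map_zero, star_zero]
  | add u1 u2 h1 h2 => rw [map_add, star_add, h1, h2, cstar_add, map_add]
  | single x c =>
    have h1 : cstar (Finsupp.single x c) = Finsupp.single x (starRingEnd ℂ c) := by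
      simp [cstar]
    rw [h1, Phi_single, Phi_single, star_smul]
    congr 1
    apply lp.ext
    funext s
    rw [lp.star_apply, pel_apply]
    unfold pfun
    split_ifs
    · exact hsa _
    · exact star_zero _

/-- The dense *-subalgebra: finite combinations of the `(p_x, δ_x)` modulo `c_0(T; M)`. -/
def S0 (hsa : ∀ i, star (P i) = P i) (hidem : ∀ i, P i * P i = P i) :
    NonUnitalStarSubalgebra ℂ (Amb M) where
  carrier := {u | ∃ v : Br →₀ ℂ, (∀ x, (u.2 : LB) x = v x) ∧ u.1 - Phi P v ∈ J M}
  add_mem' := by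
    rintro a b ⟨u, hu1, hu2⟩ ⟨v, hv1, hv2⟩
    refine ⟨u + v, ?_, ?_⟩
    · intro x
      rw [Prod.snd_add, lp.coeFn_add, Pi.add_apply, hu1, hv1, Finsupp.add_apply]
    · have : (a + b).1 - Phi P (u + v) = (a.1 - Phi P u) + (b.1 - Phi P v) := by
        rw [Prod.fst_add, map_add]; abel
      rw [this]
      exact (J M).add_mem hu2 hv2
  zero_mem' := ⟨0, by intro x; simp, by simp⟩
  mul_mem' := by
    rintro a b ⟨u, hu1, hu2⟩ ⟨v, hv1, hv2⟩
    refine ⟨u * v, ?_, ?_⟩
    · intro x
      rw [Prod.snd_mul, lp.infty_coeFn_mul, Pi.mul_apply, hu1, hv1, Finsupp.mul_apply]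
    · have : (a * b).1 - Phi P (u * v) = (a.1 - Phi P u) * b.1 + Phi P u * (b.1 - Phi P v) +
          (Phi P u * Phi P v - Phi P (u * v)) := by
        rw [Prod.fst_mul]
        simp only [sub_mul, mul_sub]
        abel
      rw [this]
      exact (J M).add_mem ((J M).add_mem (J_mul_right hu2) (J_mul_left hv2))
        (Phi_mul P hidem u v)
  smul_mem' := by
    rintro c a ⟨u, hu1, hu2⟩
    refine ⟨c • u, ?_, ?_⟩
    · intro x
      rw [Prod.smul_snd, lp.coeFn_smul, Pi.smul_apply, hu1, Finsupp.smul_apply]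
    · have : (c • a).1 - Phi P (c • u) = c • (a.1 - Phi P u) := by
        rw [Prod.smul_fst, map_smul, smul_sub]
      rw [this]
      exact (J M).smul_mem c hu2
  star_mem' := by
    rintro a ⟨u, hu1, hu2⟩
    refine ⟨cstar u, ?_, ?_⟩
    · intro x
      rw [Prod.snd_star, lp.star_apply, hu1]
      simp [cstar]
    · have : (star a).1 - Phi P (cstar u) = star (a.1 - Phi P u) := by
        rw [Prod.fst_star, star_sub, Phi_star P hsa]
      rw [this]
      exact J_star hu2

/-- The C*-algebra `A`. -/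
def AA (hsa : ∀ i, star (P i) = P i) (hidem : ∀ i, P i * P i = P i) :
    NonUnitalStarSubalgebra ℂ (Amb M) := (S0 P hsa hidem).topologicalClosure

variable {P}
variable {hsa : ∀ i, star (P i) = P i} {hidem : ∀ i, P i * P i = P i}

theorem mem_AA_iff {a : Amb M} : a ∈ AA P hsa hidem ↔
    ∀ ε > 0, ∃ b ∈ S0 P hsa hidem, ‖a - b‖ < ε := by
  have h1 : a ∈ AA P hsa hidem ↔ a ∈ closure (S0 P hsa hidem : Set (Amb M)) := Iff.rfl
  rw [h1, Metric.mem_closure_iff]
  simp only [dist_eq_norm]
  rfl

theorem AA_closed : IsClosed (AA P hsa hidem : Set (Amb M)) :=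
  NonUnitalStarSubalgebra.isClosed_topologicalClosure _

theorem S0_le_AA {a : Amb M} (ha : a ∈ S0 P hsa hidem) : a ∈ AA P hsa hidem := by
  rw [mem_AA_iff]
  intro ε hε
  exact ⟨a, ha, by simpa using hε⟩

theorem tendsto_nd (x : Br) : Tendsto (nd x) atTop cofinite := by
  rw [← Nat.cofinite_eq_atTop]
  exact (nd_injective x).tendsto_cofinite

theorem Phi_nd (v : Br →₀ ℂ) (x : Br) :
    ∀ᶠ n in atTop, (Phi P v : LT M) (nd x n) = v x • P (x n) := by
  classical
  induction v using Finsupp.induction_linear with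
  | zero =>
    filter_upwards with n
    simp
  | add u v h1 h2 =>
    filter_upwards [h1, h2] with n h1 h2
    rw [map_add, lp.coeFn_add, Pi.add_apply, h1, h2, Finsupp.add_apply, add_smul]
  | single y c =>
    by_cases hxy : x = y
    · subst hxy
      filter_upwards with n
      rw [Phi_single, lp.coeFn_smul, Pi.smul_apply, pel_apply, pfun_nd, Finsupp.single_eq_same]
    · have h1 := (tendsto_nd x).eventually (finite_common hxy).compl_mem_cofinite
      filter_upwards [h1] with n hn
      have h2 : nd x n ≠ nd y n := by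
        intro h
        exact hn ⟨rfl, h⟩
      rw [Phi_single, lp.coeFn_smul, Pi.smul_apply, pel_apply, pfun_ne P h2,
        Finsupp.single_eq_of_ne hxy]
      simp

/-- Along the branch `x`, an element `a` of `A` is asymptotic to `a.2 x • P (x n)`. -/
theorem AA_asymp {a : Amb M} (ha : a ∈ AA P hsa hidem) (x : Br) :
    Tendsto (fun n => (a.1 : LT M) (nd x n) - (a.2 : LB) x • P (x n)) atTop (𝓝 0) := by
  rw [Metric.tendsto_atTop]
  intro ε hε
  set C := 1 + PB P with hC
  have hC1 : 1 ≤ C := by have := PB_nonneg P; linarith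
  obtain ⟨b, ⟨v, hv1, hv2⟩, hab⟩ := mem_AA_iff.1 ha (ε / (2 * C)) (by positivity)
  have h1 : Tendsto (fun n => (b.1 - Phi P v : LT M) (nd x n)) atTop (𝓝 0) :=
    (mem_J.1 hv2).comp (tendsto_nd x)
  obtain ⟨N1, hN1⟩ := Metric.tendsto_atTop.1 h1 (ε / 2) (by positivity)
  obtain ⟨N2, hN2⟩ := eventually_atTop.1 (Phi_nd (P := P) v x)
  refine ⟨max N1 N2, fun n hn => ?_⟩
  have h2 := hN1 n (le_trans (le_max_left _ _) hn)
  have h3 := hN2 n (le_trans (le_max_right _ _) hn)
  rw [dist_zero_right] at h2 ⊢
  rw [lp.coeFn_sub, Pi.sub_apply, h3, ← hv1] at h2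
  have h4 : ‖(a.1 : LT M) (nd x n) - (b.1 : LT M) (nd x n)‖ ≤ ‖a - b‖ := by
    calc ‖(a.1 : LT M) (nd x n) - (b.1 : LT M) (nd x n)‖ = ‖(a.1 - b.1 : LT M) (nd x n)‖ := by
          rw [lp.coeFn_sub, Pi.sub_apply]
      _ ≤ ‖a.1 - b.1‖ := lp.norm_apply_le_norm (by norm_num) _ _
      _ ≤ ‖a - b‖ := norm_fst_le (a - b)
  have h5 : ‖(a.2 : LB) x - (b.2 : LB) x‖ ≤ ‖a - b‖ := by
    calc ‖(a.2 : LB) x - (b.2 : LB) x‖ = ‖(a.2 - b.2 : LB) x‖ := by
          rw [lp.coeFn_sub, Pi.sub_apply]
      _ ≤ ‖a.2 - b.2‖ := lp.norm_apply_le_norm (by norm_num) _ _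
      _ ≤ ‖a - b‖ := norm_snd_le (a - b)
  have h6 : (a.1 : LT M) (nd x n) - (a.2 : LB) x • P (x n) =
      ((b.1 : LT M) (nd x n) - (b.2 : LB) x • P (x n)) +
      ((a.1 : LT M) (nd x n) - (b.1 : LT M) (nd x n)) -
      ((a.2 : LB) x - (b.2 : LB) x) • P (x n) := by
    rw [sub_smul]; abel
  rw [h6]
  calc _ ≤ ‖(b.1 : LT M) (nd x n) - (b.2 : LB) x • P (x n)‖ +
        ‖(a.1 : LT M) (nd x n) - (b.1 : LT M) (nd x n)‖ +
        ‖((a.2 : LB) x - (b.2 : LB) x) • P (x n)‖ :=
        (norm_sub_le _ _).trans (add_le_add_left (norm_add_le _ _) _)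
    _ ≤ ‖(b.1 : LT M) (nd x n) - (b.2 : LB) x • P (x n)‖ + ‖a - b‖ + ‖a - b‖ * PB P := by
        rw [norm_smul]
        gcongr
        exact P_le_PB P _
    _ < ε / 2 + ε / (2 * C) * C := by
        have h7 : ‖a - b‖ + ‖a - b‖ * PB P = ‖a - b‖ * C := by rw [hC]; ring
        have h8 : ‖a - b‖ * C < ε / (2 * C) * C := by
          apply mul_lt_mul_of_pos_right hab
          linarith
        linarith
    _ = ε := by
        field_simp
        ring

theorem AA_snd_countable {a : Amb M} (ha : a ∈ AA P hsa hidem) :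
    {x : Br | (a.2 : LB) x ≠ 0}.Countable := by
  choose b hb hab using fun n : ℕ => mem_AA_iff.1 ha (1 / ((n : ℝ) + 1)) (by positivity)
  choose v hv1 hv2 using hb
  have h1 : {x : Br | (a.2 : LB) x ≠ 0} ⊆ ⋃ n, ((v n).support : Set Br) := by
    intro x hx
    have hx' : 0 < ‖(a.2 : LB) x‖ := norm_pos_iff.2 hx
    obtain ⟨n, hn⟩ := exists_nat_one_div_lt hx'
    refine Set.mem_iUnion.2 ⟨n, ?_⟩
    rw [Finset.mem_coe, Finsupp.mem_support_iff]
    intro h0
    have h5 : ‖(a.2 : LB) x - ((b n).2 : LB) x‖ ≤ ‖a - b n‖ := by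
      calc ‖(a.2 : LB) x - ((b n).2 : LB) x‖ = ‖(a.2 - (b n).2 : LB) x‖ := by
            rw [lp.coeFn_sub, Pi.sub_apply]
        _ ≤ ‖a.2 - (b n).2‖ := lp.norm_apply_le_norm (by norm_num) _ _
        _ ≤ ‖a - b n‖ := norm_snd_le (a - b n)
    rw [hv1 n x, h0, sub_zero] at h5
    linarith [hab n]
  exact (Set.countable_iUnion fun n => (v n).support.countable_toSet).mono h1

end Alg

end

end Pool.Agent.Helper40.Hered
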