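import Pool.Agent.Helper40.Hered.Algebra

/-! Commutative C*-subalgebras of the tree algebra are separable. -/

namespace Pool.Agent.Helper40.Hered

noncomputable section

open Filter Topology
open scoped ENNReal

variable {M : Type} [CStarAlgebra M] {P : Bool → M}
variable {hsa : ∀ i, star (P i) = P i} {hidem : ∀ i, P i * P i = P i}

theorem norm_fst_apply_le (a b : Amb M) (s : Nd) :
    ‖(a.1 : LT M) s - (b.1 : LT M) s‖ ≤ ‖a - b‖ := by
  calc ‖(a.1 : LT M) s - (b.1 : LT M) s‖ = ‖(a.1 - b.1 : LT M) s‖ := by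
        rw [lp.coeFn_sub, Pi.sub_apply]
    _ ≤ ‖a.1 - b.1‖ := lp.norm_apply_le_norm (by norm_num) _ _
    _ ≤ ‖a - b‖ := norm_fst_le (a - b)

theorem norm_snd_apply_le (a b : Amb M) (x : Br) :
    ‖(a.2 : LB) x - (b.2 : LB) x‖ ≤ ‖a - b‖ := by
  calc ‖(a.2 : LB) x - (b.2 : LB) x‖ = ‖(a.2 - b.2 : LB) x‖ := by
        rw [lp.coeFn_sub, Pi.sub_apply]
    _ ≤ ‖a.2 - b.2‖ := lp.norm_apply_le_norm (by norm_num) _ _
    _ ≤ ‖a - b‖ := norm_snd_le (a - b)

theorem Phi_apply (v : Br →₀ ℂ) (s : Nd) :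
    (Phi P v : LT M) s = ∑ x ∈ v.support, v x • pfun P x s := by
  rw [Phi, Finsupp.linearCombination_apply, Finsupp.sum, lp.coeFn_sum, Finset.sum_apply]
  refine Finset.sum_congr rfl fun x _ => ?_
  rw [lp.coeFn_smul, Pi.smul_apply, pel_apply]

theorem Phi_eventually_le (v : Br →₀ ℂ) (R : ℝ) (hR : ∀ x, ‖v x‖ ≤ R) :
    ∀ᶠ s in cofinite, ‖(Phi P v : LT M) s‖ ≤ PB P * R := by
  classical
  have hR0 : 0 ≤ R := (norm_nonneg _).trans (hR (fun _ => true))
  have h1 : ∀ q ∈ v.support ×ˢ v.support, ∀ᶠ s : Nd in cofinite,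
      ¬ (q.1 ≠ q.2 ∧ s = nd q.1 s.1 ∧ s = nd q.2 s.1) := by
    intro q _
    by_cases hq : q.1 = q.2
    · filter_upwards with s h
      exact h.1 hq
    · filter_upwards [(finite_common hq).compl_mem_cofinite] with s hs h
      exact hs h.2
  rw [← Filter.eventually_all_finset] at h1
  filter_upwards [h1] with s hs
  rw [Phi_apply]
  by_cases hex : ∃ x ∈ v.support, s = nd x s.1
  · obtain ⟨x, hx, hxs⟩ := hex
    rw [Finset.sum_eq_single x]
    · rw [norm_smul, mul_comm]
      exact mul_le_mul (norm_pfun_le P x s) (hR x) (norm_nonneg _) (PB_nonneg P)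
    · intro y hy hyx
      have h2 : s ≠ nd y s.1 := by
        intro h
        exact hs (x, y) (Finset.mem_product.2 ⟨hx, hy⟩) ⟨Ne.symm hyx, hxs, h⟩
      rw [pfun_ne P h2, smul_zero]
    · intro h; exact absurd hx h
  · push Not at hex
    rw [Finset.sum_eq_zero]
    · rw [norm_zero]
      exact mul_nonneg (PB_nonneg P) hR0
    · intro x hx
      rw [pfun_ne P (hex x hx), smul_zero]

/-- At infinity of the tree, `‖a.1‖` is controlled by `‖a.2‖`. -/
theorem AA_eventually_le {a : Amb M} (ha : a ∈ AA P hsa hidem) (R : ℝ) (hR : ‖a.2‖ ≤ R) {ε : ℝ}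
    (hε : 0 < ε) : ∀ᶠ s in cofinite, ‖(a.1 : LT M) s‖ ≤ PB P * R + ε := by
  have hPB := PB_nonneg P
  set η := ε / (2 * (2 + PB P)) with hη
  have hη0 : 0 < η := by positivity
  obtain ⟨b, ⟨v, hv1, hv2⟩, hab⟩ := mem_AA_iff.1 ha η hη0
  have h1 : ∀ x, ‖v x‖ ≤ R + η := by
    intro x
    rw [← hv1]
    have h2 := norm_snd_apply_le a b x
    have h3 : ‖(a.2 : LB) x‖ ≤ ‖a.2‖ := lp.norm_apply_le_norm (by norm_num) _ _
    have h4 : ‖(b.2 : LB) x‖ ≤ ‖(a.2 : LB) x‖ + ‖(a.2 : LB) x - (b.2 : LB) x‖ := by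
      have := norm_sub_le ((a.2 : LB) x) ((a.2 : LB) x - (b.2 : LB) x)
      simpa using this
    linarith
  have h2 := Phi_eventually_le (P := P) v (R + η) h1
  have h3 : ∀ᶠ s in cofinite, ‖(b.1 - Phi P v : LT M) s‖ < η := by
    have := (mem_J.1 hv2).norm
    rw [norm_zero] at this
    exact this (Iio_mem_nhds hη0)
  filter_upwards [h2, h3] with s h2 h3
  rw [lp.coeFn_sub, Pi.sub_apply] at h3
  have h4 := norm_fst_apply_le a b s
  have h5 : (a.1 : LT M) s = ((a.1 : LT M) s - (b.1 : LT M) s) +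
      ((b.1 : LT M) s - (Phi P v : LT M) s) + (Phi P v : LT M) s := by abel
  have h6 : PB P * (R + η) + 2 * η ≤ PB P * R + ε := by
    have : (2 + PB P) * η = ε / 2 := by rw [hη]; field_simp
    nlinarith
  calc ‖(a.1 : LT M) s‖ ≤ ‖(a.1 : LT M) s - (b.1 : LT M) s‖ +
        ‖(b.1 : LT M) s - (Phi P v : LT M) s‖ + ‖(Phi P v : LT M) s‖ := by
        conv_lhs => rw [h5]
        exact norm_add₃_le
    _ ≤ η + η + PB P * (R + η) := by
        gcongr
        exact h4.trans hab.le
    _ ≤ PB P * R + ε := by linarith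

/-! ### Separability of `c_0` spaces -/

section C0

/-- Elements of `ℓ^∞` vanishing at infinity off a countable set form a separable set. -/
theorem separable_c0 {ι : Type} (Q : Set ι) (hQ : Q.Countable) (E : Type) [NormedAddCommGroup E]
    [NormedSpace ℂ E] [TopologicalSpace.SeparableSpace E] :
    TopologicalSpace.IsSeparable {a : lp (fun _ : ι => E) ∞ | (∀ i ∉ Q, (a : ι → E) i = 0) ∧
      Tendsto (fun i => (a : ι → E) i) cofinite (𝓝 0)} := by
  classical
  have hQc : Countable Q := hQ.to_subtype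
  -- the maps `u ↦ ∑_{i ∈ F} δ_i u_i`
  let j : Finset Q → (Q → E) → lp (fun _ : ι => E) ∞ := fun F u =>
    ∑ i ∈ F, lp.single ∞ (i : ι) (u i)
  have hj : ∀ F, Continuous (j F) := by
    intro F
    apply continuous_finsetSum
    intro i _
    have h1 : Continuous fun x : E => (lp.single ∞ (i : ι) x : lp (fun _ : ι => E) ∞) :=
      (lp.isometry_single (E := fun _ : ι => E) (p := ∞) (i : ι)).continuous
    exact h1.comp (continuous_apply i)
  have h1 : TopologicalSpace.IsSeparable (⋃ F, Set.range (j F)) :=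
    TopologicalSpace.IsSeparable.iUnion fun F => TopologicalSpace.isSeparable_range (hj F)
  refine h1.closure.mono ?_
  rintro a ⟨ha1, ha2⟩
  rw [Metric.mem_closure_iff]
  intro ε hε
  have h2 : {i : ι | ¬ ‖(a : ι → E) i‖ < ε / 2}.Finite := by
    have := ha2.norm
    rw [norm_zero] at this
    exact this (Iio_mem_nhds (show (0 : ℝ) < ε / 2 by positivity))
  have h3 : (Subtype.val ⁻¹' {i : ι | ¬ ‖(a : ι → E) i‖ < ε / 2} : Set Q).Finite :=
    h2.preimage Subtype.val_injective.injOn
  set F := h3.toFinset with hF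
  refine ⟨j F (fun i => (a : ι → E) i), Set.mem_iUnion.2 ⟨F, _, rfl⟩, ?_⟩
  rw [dist_eq_norm]
  refine lt_of_le_of_lt ?_ (show ε / 2 < ε by linarith)
  apply lp.norm_le_of_forall_le (by positivity)
  intro i
  rw [lp.coeFn_sub, Pi.sub_apply, lp.coeFn_sum, Finset.sum_apply]
  by_cases hi : i ∈ Q
  · by_cases hiF : (⟨i, hi⟩ : Q) ∈ F
    · rw [Finset.sum_eq_single (⟨i, hi⟩ : Q)]
      · rw [lp.single_apply_self, sub_self, norm_zero]
        positivity
      · intro k _ hk
        rw [lp.single_apply_ne]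
        intro h
        exact hk (Subtype.ext h.symm)
      · intro h; exact absurd hiF h
    · rw [Finset.sum_eq_zero]
      · rw [sub_zero]
        have h4 : i ∉ {i : ι | ¬ ‖(a : ι → E) i‖ < ε / 2} := by
          intro h
          apply hiF
          rw [hF, Set.Finite.mem_toFinset]
          exact h
        have h5 : ‖(a : ι → E) i‖ < ε / 2 := by
          by_contra hcon
          exact h4 hcon
        exact h5.le
      · intro k hk
        rw [lp.single_apply_ne]
        intro h
        apply hiF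
        have : k = (⟨i, hi⟩ : Q) := Subtype.ext h.symm
        rw [← this]; exact hk
  · rw [ha1 i hi, Finset.sum_eq_zero]
    · rw [sub_zero, norm_zero]
      positivity
    · intro k _
      rw [lp.single_apply_ne]
      intro h
      exact hi (h ▸ k.2)

end C0

theorem AA_snd_tendsto {a : Amb M} (ha : a ∈ AA P hsa hidem) :
    Tendsto (fun x => (a.2 : LB) x) cofinite (𝓝 0) := by
  rw [tendsto_zero_iff_norm_tendsto_zero]
  rw [Metric.tendsto_nhds]
  intro ε hε
  obtain ⟨b, ⟨v, hv1, -⟩, hab⟩ := mem_AA_iff.1 ha ε hε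
  filter_upwards [(v.support.finite_toSet).compl_mem_cofinite] with x hx
  have h1 : v x = 0 := by
    by_contra hcon
    exact hx (Finset.mem_coe.2 (Finsupp.mem_support_iff.2 hcon))
  have h2 := norm_snd_apply_le a b x
  rw [hv1, h1, sub_zero] at h2
  rw [dist_zero_right, norm_norm]
  linarith

/-- A subset of `A` whose second coordinates live on a countable set of branches is separable. -/
theorem separable_of_countable [TopologicalSpace.SeparableSpace M] (W : Set (Amb M))
    (hW : ∀ a ∈ W, a ∈ AA P hsa hidem) (Q : Set Br) (hQ : Q.Countable)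
    (hWQ : ∀ a ∈ W, ∀ x ∉ Q, (a.2 : LB) x = 0) : TopologicalSpace.IsSeparable W := by
  classical
  have hV : TopologicalSpace.IsSeparable ((fun a : Amb M => a.2) '' W) := by
    refine (separable_c0 Q hQ ℂ).mono ?_
    rintro _ ⟨a, ha, rfl⟩
    exact ⟨hWQ a ha, AA_snd_tendsto (hW a ha)⟩
  obtain ⟨c, hcV, hcc, hcd⟩ := hV.exists_countable_dense_subset
  have hcount : Countable c := hcc.to_subtype
  have hcV' : ∀ y ∈ c, ∃ a : Amb M, a ∈ W ∧ a.2 = y := by
    intro y hy
    obtain ⟨a, ha, h⟩ := hcV hy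
    exact ⟨a, ha, h⟩
  choose! w hwW hw2 using hcV'
  -- `J × 0`
  have hJ : TopologicalSpace.IsSeparable {a : LT M | Tendsto (fun s => (a : LT M) s) cofinite
      (𝓝 0)} := by
    refine (separable_c0 (Set.univ : Set Nd) Set.countable_univ M).mono ?_
    intro a ha
    exact ⟨fun i hi => absurd (Set.mem_univ i) hi, ha⟩
  have h1 : ∀ y : c, TopologicalSpace.IsSeparable
      ((fun j : LT M => (w y + (j, 0) : Amb M)) '' {a : LT M | Tendsto (fun s => (a : LT M) s)
        cofinite (𝓝 0)}) := by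
    intro y
    apply hJ.image
    fun_prop
  have h2 := (TopologicalSpace.IsSeparable.iUnion h1).closure
  refine h2.mono ?_
  intro a ha
  rw [Metric.mem_closure_iff]
  intro ε hε
  have hPB := PB_nonneg P
  set η := ε / (2 * (2 + PB P)) with hη
  have hη0 : 0 < η := by positivity
  have hη1 : (2 + PB P) * η = ε / 2 := by rw [hη]; field_simp
  obtain ⟨y, hyc, hy⟩ := Metric.mem_closure_iff.1 (hcd ⟨a, ha, rfl⟩) η hη0
  have hwy : w y ∈ W := hwW y hyc
  have hwy2 : (w y).2 = y := hw2 y hyc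
  have hdiff : a - w y ∈ AA P hsa hidem := sub_mem (hW a ha) (hW _ hwy)
  have hdiff2 : ‖(a - w y).2‖ ≤ η := by
    rw [Prod.snd_sub, hwy2, ← dist_eq_norm]
    exact hy.le
  have h3 := AA_eventually_le hdiff η hdiff2 hη0
  have h4 : {s : Nd | ¬ ‖((a - w y).1 : LT M) s‖ ≤ PB P * η + η}.Finite := h3
  -- the correction
  let jf : Nd → M := fun s => if ‖((a - w y).1 : LT M) s‖ ≤ PB P * η + η then 0
    else ((a - w y).1 : LT M) s
  have hjf : ∀ s, ‖jf s‖ ≤ ‖(a - w y).1‖ := by
    intro s
    simp only [jf]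
    split_ifs
    · rw [norm_zero]; exact norm_nonneg _
    · exact lp.norm_apply_le_norm (by norm_num) _ _
  let jj : LT M := ⟨jf, memlp_of_bound _ _ hjf⟩
  have hjj : ∀ s, (jj : LT M) s = jf s := fun s => rfl
  have hjjJ : Tendsto (fun s => (jj : LT M) s) cofinite (𝓝 0) := by
    refine tendsto_const_nhds.congr' ?_
    filter_upwards [h3] with s hs
    rw [hjj]
    simp only [jf, if_pos hs]
  refine ⟨w y + (jj, 0), Set.mem_iUnion.2 ⟨⟨y, hyc⟩, jj, hjjJ, rfl⟩, ?_⟩
  rw [dist_eq_norm]
  have h5 : a - (w y + (jj, 0)) = ((a - w y).1 - jj, (a - w y).2) := by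
    ext1
    · simp only [Prod.fst_sub, Prod.fst_add]; abel
    · simp only [Prod.snd_sub, Prod.snd_add, add_zero]
  rw [h5]
  refine lt_of_le_of_lt (norm_prod_le_iff.2 ⟨?_, ?_⟩) (show (2 + PB P) * η < ε by linarith)
  · apply lp.norm_le_of_forall_le (by positivity)
    intro s
    rw [lp.coeFn_sub, Pi.sub_apply, hjj]
    simp only [jf]
    split_ifs with hs
    · rw [sub_zero]
      nlinarith
    · rw [sub_self, norm_zero]
      positivity
  · show ‖(a - w y).2‖ ≤ (2 + PB P) * η
    nlinarith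

/-- The commutation argument: a commuting subset of `A` closed under scalar multiplication has
second coordinates living on a countable set of branches. -/
theorem countable_of_comm (hne : P false * P true ≠ P true * P false) (W : Set (Amb M))
    (hW : ∀ a ∈ W, a ∈ AA P hsa hidem) (hsmul : ∀ (c : ℂ), ∀ a ∈ W, c • a ∈ W)
    (hcomm : ∀ a ∈ W, ∀ b ∈ W, a * b = b * a) :
    {x : Br | ∃ a ∈ W, (a.2 : LB) x ≠ 0}.Countable := by
  classical
  have hPB := PB_nonneg P
  set δ := ‖P false * P true - P true * P false‖ with hδ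
  have hδ0 : 0 < δ := norm_pos_iff.2 (sub_ne_zero.2 hne)
  have hδ' : ∀ i j : Bool, i ≠ j → ‖P i * P j - P j * P i‖ = δ := by
    intro i j hij
    cases i <;> cases j
    · exact absurd rfl hij
    · rfl
    · rw [norm_sub_rev]
    · exact absurd rfl hij
  -- tolerance depending on the size
  let η : ℕ → ℝ := fun R => δ / (8 * (R + PB P + 1))
  have hη0 : ∀ R, 0 < η R := fun R => by positivity
  let S : ℕ × ℕ → Set Br := fun q => {x | ∃ a ∈ W, ‖a‖ ≤ q.1 ∧
    ∀ n ≥ q.2, ‖(a.1 : LT M) (nd x n) - P (x n)‖ ≤ η q.1}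
  have hcover : {x : Br | ∃ a ∈ W, (a.2 : LB) x ≠ 0} ⊆ ⋃ q, S q := by
    rintro x ⟨a, ha, hax⟩
    set b := ((a.2 : LB) x)⁻¹ • a with hb
    have hbW : b ∈ W := hsmul _ a ha
    have hbx : (b.2 : LB) x = 1 := by
      rw [hb, Prod.smul_snd, lp.coeFn_smul, Pi.smul_apply, smul_eq_mul, inv_mul_cancel₀ hax]
    obtain ⟨R, hR⟩ := exists_nat_ge ‖b‖
    have h1 := AA_asymp (hW b hbW) x
    rw [Metric.tendsto_atTop] at h1
    obtain ⟨m, hm⟩ := h1 (η R) (hη0 R)
    refine Set.mem_iUnion.2 ⟨(R, m), b, hbW, hR, fun n hn => ?_⟩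
    have h2 := hm n hn
    rw [dist_zero_right, hbx, one_smul] at h2
    exact h2.le
  refine (Set.countable_iUnion fun q => ?_).mono hcover
  -- each `S q` is finite
  obtain ⟨R, m⟩ := q
  apply Set.Finite.countable
  have hinj : Set.InjOn (fun (x : Br) (i : Fin m) => x i) (S (R, m)) := by
    intro x hx y hy hxy
    by_contra hne'
    obtain ⟨n, hn1, hn2⟩ := exists_split hne'
    have hnm : m ≤ n := by
      by_contra hcon
      push Not at hcon
      exact hn2 (congrFun hxy ⟨n, hcon⟩)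
    obtain ⟨a, haW, haR, ha⟩ := hx
    obtain ⟨b, hbW, hbR, hb⟩ := hy
    have ha' := ha n hnm
    have hb' := hb n hnm
    rw [← hn1] at hb'
    set s := nd x n
    set u := (a.1 : LT M) s with hu
    set w := (b.1 : LT M) s with hw
    have hcomm' : u * w = w * u := by
      have h1 := congrArg (fun c : Amb M => (c.1 : LT M) s) (hcomm a haW b hbW)
      simpa only [Prod.fst_mul, lp.infty_coeFn_mul, Pi.mul_apply] using h1
    have huR : ‖u‖ ≤ R := by
      calc ‖u‖ ≤ ‖a.1‖ := lp.norm_apply_le_norm (by norm_num) _ _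
        _ ≤ ‖a‖ := norm_fst_le a
        _ ≤ R := haR
    have hwR : ‖w‖ ≤ R := by
      calc ‖w‖ ≤ ‖b.1‖ := lp.norm_apply_le_norm (by norm_num) _ _
        _ ≤ ‖b‖ := norm_fst_le b
        _ ≤ R := hbR
    have h3 : P (x n) * P (y n) - P (y n) * P (x n) =
        -((u - P (x n)) * w) - P (x n) * (w - P (y n)) + (w - P (y n)) * u +
          P (y n) * (u - P (x n)) := by
      have : u * w - w * u = 0 := sub_eq_zero.2 hcomm'
      have h4 : -((u - P (x n)) * w) - P (x n) * (w - P (y n)) + (w - P (y n)) * u +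
          P (y n) * (u - P (x n)) = P (x n) * P (y n) - P (y n) * P (x n) - (u * w - w * u) := by
        noncomm_ring
      rw [h4, this, sub_zero]
    have hη' := hη0 R
    have h5 : δ ≤ η R * R + PB P * η R + η R * R + PB P * η R := by
      rw [← hδ' _ _ hn2, h3]
      calc _ ≤ ‖-((u - P (x n)) * w)‖ + ‖P (x n) * (w - P (y n))‖ + ‖(w - P (y n)) * u‖ +
            ‖P (y n) * (u - P (x n))‖ := by
            refine (norm_add_le _ _).trans (add_le_add_left ?_ _)
            refine (norm_add_le _ _).trans (add_le_add_left ?_ _)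
            exact norm_sub_le _ _
        _ ≤ η R * R + PB P * η R + η R * R + PB P * η R := by
            rw [norm_neg]
            gcongr
            · exact (norm_mul_le _ _).trans (mul_le_mul ha' hwR (norm_nonneg _) hη'.le)
            · exact (norm_mul_le _ _).trans
                (mul_le_mul (P_le_PB P _) hb' (norm_nonneg _) hPB)
            · exact (norm_mul_le _ _).trans (mul_le_mul hb' huR (norm_nonneg _) hη'.le)
            · exact (norm_mul_le _ _).trans
                (mul_le_mul (P_le_PB P _) ha' (norm_nonneg _) hPB)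
    have h6 : (R + PB P + 1) * η R = δ / 8 := by
      simp only [η]
      field_simp
    have hR0 : (0 : ℝ) ≤ R := Nat.cast_nonneg R
    nlinarith
  exact Set.Finite.of_finite_image (Set.toFinite _) hinj

end

end Pool.Agent.Helper40.Hered
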