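import Mathlib

/-! Scalar cut-off functions and their functional calculus in a C*-algebra. -/

namespace Pool.Agent.Helper40.Hered

noncomputable section

/-- `e N` vanishes for `t ≤ 2^{-(N+1)}` and is `1` for `t ≥ 2^{-N}`. -/
def e (N : ℕ) (t : ℝ) : ℝ := max 0 (min 1 (2 ^ (N + 1) * t - 1))

/-- The increments of `e`. -/
def g : ℕ → ℝ → ℝ
  | 0 => e 0
  | (n + 1) => fun t => e (n + 1) t - e n t

/-- Square roots of the increments. -/
def f (n : ℕ) (t : ℝ) : ℝ := Real.sqrt (g n t)

theorem e_continuous (N : ℕ) : Continuous (e N) := by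
  unfold e; fun_prop

theorem e_nonneg (N : ℕ) (t : ℝ) : 0 ≤ e N t := le_max_left _ _

theorem e_le_one (N : ℕ) (t : ℝ) : e N t ≤ 1 :=
  max_le zero_le_one (min_le_left _ _)

theorem e_zero (N : ℕ) : e N 0 = 0 := by simp [e]

theorem e_eq_zero {N : ℕ} {t : ℝ} (h : t ≤ (1/2) ^ (N + 1)) : e N t = 0 := by
  unfold e
  apply max_eq_left
  apply (min_le_right _ _).trans
  have h2 : (0 : ℝ) < 2 ^ (N + 1) := by positivity
  have h3 : (2 : ℝ) ^ (N + 1) * (1/2) ^ (N + 1) = 1 := by
    rw [← mul_pow]; norm_num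
  nlinarith [mul_le_mul_of_nonneg_left h h2.le]

theorem e_eq_one {N : ℕ} {t : ℝ} (h : (1/2) ^ N ≤ t) : e N t = 1 := by
  unfold e
  have h2 : (0 : ℝ) < 2 ^ (N + 1) := by positivity
  have h3 : (2 : ℝ) ^ (N + 1) * (1/2) ^ N = 2 := by
    rw [pow_succ, mul_right_comm, ← mul_pow]; norm_num
  have h4 : 1 ≤ 2 ^ (N + 1) * t - 1 := by
    nlinarith [mul_le_mul_of_nonneg_left h h2.le]
  rw [min_eq_left h4]
  exact max_eq_right zero_le_one

theorem e_mono (N : ℕ) (t : ℝ) : e N t ≤ e (N + 1) t := by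
  rcases le_or_gt t 0 with ht | ht
  · rw [e_eq_zero (ht.trans (by positivity))]
    exact e_nonneg _ _
  · unfold e
    apply max_le_max le_rfl
    apply min_le_min le_rfl
    have : (2 : ℝ) ^ (N + 1) ≤ 2 ^ (N + 1 + 1) := pow_le_pow_right₀ (by norm_num) (by omega)
    nlinarith

theorem g_continuous (n : ℕ) : Continuous (g n) := by
  cases n with
  | zero => exact e_continuous 0
  | succ n => exact (e_continuous _).sub (e_continuous _)

theorem g_nonneg (n : ℕ) (t : ℝ) : 0 ≤ g n t := by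
  cases n with
  | zero => exact e_nonneg 0 t
  | succ n => exact sub_nonneg.2 (e_mono n t)

theorem g_le_one (n : ℕ) (t : ℝ) : g n t ≤ 1 := by
  cases n with
  | zero => exact e_le_one 0 t
  | succ n =>
    have h1 := e_le_one (n + 1) t
    have h2 := e_nonneg n t
    show e (n + 1) t - e n t ≤ 1
    linarith

theorem g_zero (n : ℕ) : g n 0 = 0 := by
  cases n with
  | zero => exact e_zero 0
  | succ n => show e (n + 1) 0 - e n 0 = 0; rw [e_zero, e_zero, sub_zero]

theorem g_sum (N : ℕ) (t : ℝ) : ∑ n ∈ Finset.range (N + 1), g n t = e N t := by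
  induction N with
  | zero => simp [g]
  | succ N ih =>
    rw [Finset.sum_range_succ, ih]
    show e N t + (e (N + 1) t - e N t) = e (N + 1) t
    ring

theorem lt_of_g_ne_zero {n : ℕ} {t : ℝ} (h : g n t ≠ 0) : (1/2) ^ (n + 1) < t := by
  by_contra hcon
  push Not at hcon
  apply h
  cases n with
  | zero => exact e_eq_zero hcon
  | succ n =>
    show e (n + 1) t - e n t = 0
    rw [e_eq_zero hcon, e_eq_zero (hcon.trans _), sub_zero]
    exact pow_le_pow_of_le_one (by norm_num) (by norm_num) (by omega)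

theorem g_ne_zero_lt {n : ℕ} {t : ℝ} (h : g (n + 1) t ≠ 0) : t < (1/2) ^ n := by
  by_contra hcon
  push Not at hcon
  apply h
  show e (n + 1) t - e n t = 0
  rw [e_eq_one hcon, e_eq_one (le_trans _ hcon), sub_self]
  exact pow_le_pow_of_le_one (by norm_num) (by norm_num) (by omega)

theorem f_continuous (n : ℕ) : Continuous (f n) := Real.continuous_sqrt.comp (g_continuous n)

theorem f_nonneg (n : ℕ) (t : ℝ) : 0 ≤ f n t := Real.sqrt_nonneg _

theorem f_le_one (n : ℕ) (t : ℝ) : f n t ≤ 1 := by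
  unfold f
  rw [Real.sqrt_le_one]
  exact g_le_one n t

theorem f_zero (n : ℕ) : f n 0 = 0 := by rw [f, g_zero, Real.sqrt_zero]

theorem f_mul_self (n : ℕ) (t : ℝ) : f n t * f n t = g n t := Real.mul_self_sqrt (g_nonneg n t)

theorem g_ne_zero_of_f_ne_zero {n : ℕ} {t : ℝ} (h : f n t ≠ 0) : g n t ≠ 0 := by
  intro h2; apply h; rw [f, h2, Real.sqrt_zero]

theorem f_sum_le (S : Finset ℕ) (t : ℝ) : ∑ n ∈ S, f n t ≤ 2 := by
  classical
  by_cases h : ∃ n ∈ S, f n t ≠ 0
  · -- minimal index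
    let P : ℕ → Prop := fun n => n ∈ S ∧ f n t ≠ 0
    have hP : ∃ n, P n := by obtain ⟨n, h1, h2⟩ := h; exact ⟨n, h1, h2⟩
    set n0 := Nat.find hP with hn0
    have hn0S := Nat.find_spec hP
    have hmin : ∀ n ∈ S, n < n0 → f n t = 0 := by
      intro n hn hlt
      by_contra hne
      exact Nat.find_min hP hlt ⟨hn, hne⟩
    have hbig : ∀ n ∈ S, n0 + 2 ≤ n → f n t = 0 := by
      intro n hn hle
      by_contra hne
      have h1 := lt_of_g_ne_zero (g_ne_zero_of_f_ne_zero hn0S.2)
      obtain ⟨m, rfl⟩ : ∃ m, n = m + 1 := ⟨n - 1, by omega⟩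
      have h2 := g_ne_zero_lt (g_ne_zero_of_f_ne_zero hne)
      have h3 : ((1 : ℝ)/2) ^ m ≤ (1/2) ^ (n0 + 1) :=
        pow_le_pow_of_le_one (by norm_num) (by norm_num) (by omega)
      linarith
    calc ∑ n ∈ S, f n t ≤ ∑ n ∈ ({n0, n0 + 1} : Finset ℕ), f n t := by
          have h1 : ∑ n ∈ S, f n t = ∑ n ∈ S.filter (fun n => n ∈ ({n0, n0 + 1} : Finset ℕ)),
              f n t := by
            rw [Finset.sum_filter_of_ne]
            intro n hn hne
            by_contra hcon
            simp only [Finset.mem_insert, Finset.mem_singleton, not_or] at hcon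
            apply hne
            rcases lt_or_ge n n0 with hlt | hge
            · exact hmin n hn hlt
            · exact hbig n hn (by omega)
          rw [h1]
          apply Finset.sum_le_sum_of_subset_of_nonneg
          · intro n hn
            exact (Finset.mem_filter.1 hn).2
          · intro n _ _
            exact f_nonneg n t
      _ = f n0 t + f (n0 + 1) t := by
          rw [Finset.sum_insert (by simp), Finset.sum_singleton]
      _ ≤ 2 := by
          have h1 := f_le_one n0 t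
          have h2 := f_le_one (n0 + 1) t
          linarith
  · push Not at h
    rw [Finset.sum_eq_zero h]
    norm_num

/-- signed sums of the `f n` -/
def FF (S : Finset ℕ) (ε : ℕ → ℝ) (t : ℝ) : ℝ := ∑ n ∈ S, ε n * f n t

theorem FF_continuous (S : Finset ℕ) (ε : ℕ → ℝ) : Continuous (FF S ε) := by
  unfold FF
  exact continuous_finsetSum _ fun n _ => continuous_const.mul (f_continuous n)

theorem FF_zero (S : Finset ℕ) (ε : ℕ → ℝ) : FF S ε 0 = 0 := by
  unfold FF
  exact Finset.sum_eq_zero fun n _ => by rw [f_zero, mul_zero]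

theorem FF_abs_le (S : Finset ℕ) (ε : ℕ → ℝ) (hε : ∀ n, |ε n| ≤ 1) (t : ℝ) :
    |FF S ε t| ≤ 2 := by
  calc |FF S ε t| ≤ ∑ n ∈ S, |ε n * f n t| := Finset.abs_sum_le_sum_abs _ _
    _ ≤ ∑ n ∈ S, f n t := by
      refine Finset.sum_le_sum fun n _ => ?_
      rw [abs_mul, abs_of_nonneg (f_nonneg n t)]
      have := mul_le_mul_of_nonneg_right (hε n) (f_nonneg n t)
      simpa using this
    _ ≤ 2 := f_sum_le S t

theorem FF_tail (N : ℕ) (S : Finset ℕ) (hS : ∀ n ∈ S, N + 1 ≤ n) (ε : ℕ → ℝ)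
    (hε : ∀ n, |ε n| ≤ 1) (t : ℝ) (ht : 0 ≤ t) : t * FF S ε t ^ 2 ≤ 4 * (1/2) ^ N := by
  rcases lt_or_ge t ((1/2) ^ N) with hlt | hge
  · have h1 : FF S ε t ^ 2 ≤ 4 := by
      have := FF_abs_le S ε hε t
      rw [← sq_abs]
      nlinarith [abs_nonneg (FF S ε t)]
    nlinarith [sq_nonneg (FF S ε t)]
  · have : FF S ε t = 0 := by
      unfold FF
      refine Finset.sum_eq_zero fun n hn => ?_
      have h1 : f n t = 0 := by
        by_contra hne
        obtain ⟨m, rfl⟩ : ∃ m, n = m + 1 := ⟨n - 1, by have := hS n hn; omega⟩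
        have h2 := g_ne_zero_lt (g_ne_zero_of_f_ne_zero hne)
        have h3 : ((1 : ℝ)/2) ^ m ≤ (1/2) ^ N :=
          pow_le_pow_of_le_one (by norm_num) (by norm_num) (by have := hS _ hn; omega)
        linarith
      rw [h1, mul_zero]
    rw [this]
    simp

theorem one_sub_e_bound (N : ℕ) (t : ℝ) (ht : 0 ≤ t) : t * (1 - e N t) ^ 2 ≤ (1/2) ^ N := by
  rcases lt_or_ge t ((1/2) ^ N) with hlt | hge
  · have h1 : (1 - e N t) ^ 2 ≤ 1 := by
      have h1 := e_nonneg N t
      have h2 := e_le_one N t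
      nlinarith
    nlinarith [sq_nonneg (1 - e N t)]
  · rw [e_eq_one hge]
    simp

/-- `f n t / t`, as a continuous function. -/
def FD (n : ℕ) (t : ℝ) : ℝ := f n t / max t ((1/2) ^ (n + 1))

theorem FD_continuous (n : ℕ) : Continuous (FD n) := by
  unfold FD
  refine (f_continuous n).div (by fun_prop) fun t => ?_
  have : (0 : ℝ) < (1/2) ^ (n + 1) := by positivity
  exact (lt_max_of_lt_right this).ne'

theorem FD_zero (n : ℕ) : FD n 0 = 0 := by rw [FD, f_zero, zero_div]

theorem FD_mul (n : ℕ) (t : ℝ) : FD n t * t = f n t := by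
  by_cases h : f n t = 0
  · rw [FD, h, zero_div, zero_mul]
  · have h1 := lt_of_g_ne_zero (g_ne_zero_of_f_ne_zero h)
    have h2 : (0 : ℝ) < (1/2) ^ (n + 1) := by positivity
    rw [FD, max_eq_left h1.le, div_mul_cancel₀]
    linarith

end

end Pool.Agent.Helper40.Hered
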