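import Mathlib

/-!
Banach homology in the relative (Helemskii) sense: left Banach modules, module morphisms,
admissible epimorphisms, projective left modules, hereditary Banach algebras.
-/

namespace Pool.Agent.Helper40.Hered

noncomputable section

universe u v w

/-- A left Banach `A`-module structure on the Banach space `X`: a continuous bilinear map
`(a, x) ↦ a · x` with `(a b) · x = a · (b · x)`. -/
structure BanachAction (A : Type u) (X : Type v) [NonUnitalNormedRing A] [NormedSpace ℂ A]
    [NormedAddCommGroup X] [NormedSpace ℂ X] where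
  act : A →L[ℂ] X →L[ℂ] X
  act_mul : ∀ (a b : A) (x : X), act (a * b) x = act a (act b x)

/-- Morphisms of left Banach `A`-modules: bounded linear maps commuting with the actions. -/
def IsModuleMap {A : Type u} {X : Type v} {Y : Type w} [NonUnitalNormedRing A] [NormedSpace ℂ A]
    [NormedAddCommGroup X] [NormedSpace ℂ X] [NormedAddCommGroup Y] [NormedSpace ℂ Y]
    (aX : BanachAction A X) (aY : BanachAction A Y) (T : X →L[ℂ] Y) : Prop :=
  ∀ (a : A) (x : X), T (aX.act a x) = aY.act a (T x)

/-- The left Banach `A`-module `P` is projective: for every admissible epimorphism `σ : X → Y` of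
left Banach `A`-modules (one with a bounded linear right inverse `τ`) and every morphism
`φ : P → Y` there is a morphism `ψ : P → X` with `σ ∘ ψ = φ`. -/
def IsProjective {A : Type u} {P : Type w} [NonUnitalNormedRing A] [NormedSpace ℂ A]
    [NormedAddCommGroup P] [NormedSpace ℂ P] (aP : BanachAction A P) : Prop :=
  ∀ (X Y : Type v) [NormedAddCommGroup X] [NormedSpace ℂ X] [CompleteSpace X]
    [NormedAddCommGroup Y] [NormedSpace ℂ Y] [CompleteSpace Y]
    (aX : BanachAction A X) (aY : BanachAction A Y) (σ : X →L[ℂ] Y) (φ : P →L[ℂ] Y),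
    IsModuleMap aX aY σ → (∃ τ : Y →L[ℂ] X, ∀ y, σ (τ y) = y) → IsModuleMap aP aY φ →
    ∃ ψ : P →L[ℂ] X, IsModuleMap aP aX ψ ∧ ∀ x, σ (ψ x) = φ x

/-- A left ideal of `A`, as a left `A`-module. -/
def leftIdealAction {A : Type u} [NonUnitalNormedRing A] [NormedSpace ℂ A] [IsScalarTower ℂ A A]
    [SMulCommClass ℂ A A] (I : Submodule ℂ A) (hI : ∀ (a x : A), x ∈ I → a * x ∈ I) :
    BanachAction A I where
  act := LinearMap.mkContinuous₂
    (LinearMap.mk₂ ℂ (fun (a : A) (x : I) => (⟨a * x, hI a x x.2⟩ : I))
      (fun a b x => Subtype.ext (add_mul a b (x : A)))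
      (fun c a x => Subtype.ext (smul_mul_assoc c a (x : A)))
      (fun a x y => Subtype.ext (mul_add a (x : A) (y : A)))
      (fun c a x => Subtype.ext (mul_smul_comm c a (x : A)))) 1
    (fun a x => by
      rw [one_mul]
      exact norm_mul_le a (x : A))
  act_mul := fun a b x => Subtype.ext (mul_assoc a b (x : A))

/-- The Banach algebra `A` is (left) hereditary: every closed left ideal of `A`, regarded as a left
Banach `A`-module, is projective. -/
def IsHereditary (A : Type u) [NonUnitalNormedRing A] [NormedSpace ℂ A] [IsScalarTower ℂ A A]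
    [SMulCommClass ℂ A A] : Prop :=
  ∀ (I : Submodule ℂ A) (hI : ∀ (a x : A), x ∈ I → a * x ∈ I), IsClosed (I : Set A) →
    IsProjective.{u, v, u} (leftIdealAction I hI)

theorem leftIdealAction_apply {A : Type u} [NonUnitalNormedRing A] [NormedSpace ℂ A]
    [IsScalarTower ℂ A A] [SMulCommClass ℂ A A] (I : Submodule ℂ A)
    (hI : ∀ (a x : A), x ∈ I → a * x ∈ I) (a : A) (x : I) :
    (((leftIdealAction I hI).act a x : I) : A) = a * x := rfl

end

end Pool.Agent.Helper40.Hered
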