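import Pool.Agent.Helper40.Hered.Cutoff

/-! Estimates with the functional calculus of a positive element. -/

namespace Pool.Agent.Helper40.Hered

noncomputable section

open Filter Topology Unitization
open scoped CStarAlgebra

variable {B : Type*} [NonUnitalCStarAlgebra B] [PartialOrder B] [StarOrderedRing B]

theorem unital_estimate {U : Type*} [CStarAlgebra U] [PartialOrder U] [StarOrderedRing U]
    (x h : U) (C K : ℝ) (hC : 0 ≤ C) (hh : 0 ≤ h) (hx : star x * x ≤ C • h) (G : ℝ → ℝ)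
    (hG : Continuous G) (hK0 : 0 ≤ K) (hK : ∀ t, 0 ≤ t → t * G t ^ 2 ≤ K) :
    ‖x * cfc G h‖ ^ 2 ≤ C * K := by
  have hsa : IsSelfAdjoint h := .of_nonneg hh
  have hGsa : star (cfc G h) = cfc G h := by
    exact (cfc_predicate G h : IsSelfAdjoint _).star_eq
  have h1 : ‖x * cfc G h‖ ^ 2 = ‖star (cfc G h) * (star x * x) * cfc G h‖ := by
    rw [sq, ← CStarRing.norm_star_mul_self, star_mul]
    simp only [mul_assoc]
  have h2 : star (cfc G h) * (star x * x) * cfc G h ≤ star (cfc G h) * (C • h) * cfc G h :=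
    star_left_conjugate_le_conjugate hx _
  have h3 : 0 ≤ star (cfc G h) * (star x * x) * cfc G h :=
    star_left_conjugate_nonneg (star_mul_self_nonneg x) _
  have h4 : star (cfc G h) * (C • h) * cfc G h = C • cfc (fun t => t * G t ^ 2) h := by
    rw [hGsa, mul_smul_comm, smul_mul_assoc]
    congr 1
    have e1 : cfc (fun t => t * G t ^ 2) h = cfc (fun t => G t * t * G t) h := by
      apply cfc_congr
      intro t _
      show t * G t ^ 2 = G t * t * G t
      ring
    rw [e1, cfc_mul (fun t => G t * t) G h, cfc_mul G (fun t => t) h, cfc_id' ℝ h]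
  rw [h1]
  calc ‖star (cfc G h) * (star x * x) * cfc G h‖ ≤ ‖star (cfc G h) * (C • h) * cfc G h‖ :=
        CStarAlgebra.norm_le_norm_of_nonneg_of_le h3 h2
    _ = C * ‖cfc (fun t => t * G t ^ 2) h‖ := by
        rw [h4, norm_smul, Real.norm_eq_abs, abs_of_nonneg hC]
    _ ≤ C * K := by
        gcongr
        apply norm_cfc_le hK0
        intro t ht
        have ht0 : 0 ≤ t := spectrum_nonneg_of_nonneg hh ht
        rw [Real.norm_eq_abs, abs_of_nonneg (mul_nonneg ht0 (sq_nonneg _))]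
        exact hK t ht0

theorem tail_estimate (x h : B) (C : ℝ) (hC : 0 ≤ C) (hh : 0 ≤ h)
    (hx : star x * x ≤ C • h) (N : ℕ) (S : Finset ℕ) (hS : ∀ n ∈ S, N + 1 ≤ n) (ε : ℕ → ℝ)
    (hε : ∀ n, |ε n| ≤ 1) : ‖x * cfcₙ (FF S ε) h‖ ^ 2 ≤ C * (4 * (1/2) ^ N) := by
  have hx' : star (x : B⁺¹) * (x : B⁺¹) ≤ C • (h : B⁺¹) := by
    have := (Unitization.inr_le_iff (star x * x) (C • h) (.star_mul_self x)
      ((IsSelfAdjoint.all C).smul (IsSelfAdjoint.of_nonneg hh))).2 hx
    simpa using this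
  have h1 := unital_estimate (x : B⁺¹) (h : B⁺¹) C (4 * (1/2) ^ N) hC
    (Unitization.inr_nonneg_iff.2 hh) hx' (FF S ε) (FF_continuous S ε) (by positivity)
    (fun t ht => FF_tail N S hS ε hε t ht)
  rw [← Unitization.real_cfcₙ_eq_cfc_inr h (FF S ε) (FF_zero S ε), ← Unitization.inr_mul,
    Unitization.norm_inr] at h1
  exact h1

theorem unit_estimate (x h : B) (C : ℝ) (hC : 0 ≤ C) (hh : 0 ≤ h)
    (hx : star x * x ≤ C • h) (N : ℕ) : ‖x - x * cfcₙ (e N) h‖ ^ 2 ≤ C * (1/2) ^ N := by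
  have hx' : star (x : B⁺¹) * (x : B⁺¹) ≤ C • (h : B⁺¹) := by
    have := (Unitization.inr_le_iff (star x * x) (C • h) (.star_mul_self x)
      ((IsSelfAdjoint.all C).smul (IsSelfAdjoint.of_nonneg hh))).2 hx
    simpa using this
  have hh' : 0 ≤ (h : B⁺¹) := Unitization.inr_nonneg_iff.2 hh
  have hsa : IsSelfAdjoint (h : B⁺¹) := .of_nonneg hh'
  have h1 := unital_estimate (x : B⁺¹) (h : B⁺¹) C ((1/2) ^ N) hC hh' hx'
    (fun t => 1 - e N t) (continuous_const.sub (e_continuous N)) (by positivity)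
    (fun t ht => one_sub_e_bound N t ht)
  have h2 : cfc (fun t => 1 - e N t) (h : B⁺¹) = 1 - ((cfcₙ (e N) h : B) : B⁺¹) := by
    rw [cfc_sub (fun _ => (1 : ℝ)) (e N) (h : B⁺¹) continuousOn_const
      (e_continuous N).continuousOn, cfc_const_one ℝ (h : B⁺¹),
      Unitization.real_cfcₙ_eq_cfc_inr h (e N) (e_zero N)]
  rw [h2, mul_sub, mul_one, ← Unitization.inr_mul, ← Unitization.inr_sub,
    Unitization.norm_inr] at h1
  exact h1

end

end Pool.Agent.Helper40.Hered
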