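import Pool.Agent.Helper40.Hered.Defs
import Pool.Agent.Helper40.Hered.Algebra

/-! The tree algebra is not projective as a left module over itself. -/

namespace Pool.Agent.Helper40.Hered

noncomputable section

open Filter Topology
open scoped ENNReal

variable {M : Type} [CStarAlgebra M] {P : Bool → M}
variable {hsa : ∀ i, star (P i) = P i} {hidem : ∀ i, P i * P i = P i}

instance instAA : NonUnitalCStarAlgebra (AA P hsa hidem) :=
  NonUnitalStarSubalgebra.nonUnitalCStarAlgebra (AA P hsa hidem) (h_closed := AA_closed)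

/-! ### The modules -/

/-- Bounded functions on branches × nodes. -/
abbrev LBT (M : Type) [CStarAlgebra M] : Type := lp (fun _ : Br × Nd => M) ∞

abbrev Big (M : Type) [CStarAlgebra M] : Type := LBT M × LB

/-- A function on the nodes as a function on branches × nodes. -/
def lift (a : LT M) : LBT M := ⟨fun q => (a : LT M) q.2, memlp_of_bound _ ‖a‖
  (fun q => lp.norm_apply_le_norm (by norm_num) a q.2)⟩

theorem lift_apply (a : LT M) (q : Br × Nd) : (lift a : LBT M) q = (a : LT M) q.2 := rfl

theorem norm_lift_le (a : LT M) : ‖lift a‖ ≤ ‖a‖ :=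
  lp.norm_le_of_forall_le (norm_nonneg _) fun q => lp.norm_apply_le_norm (by norm_num) a q.2

theorem lift_add (a b : LT M) : lift (a + b) = lift a + lift b := lp.ext rfl

theorem lift_smul (c : ℂ) (a : LT M) : lift (c • a) = c • lift a := lp.ext rfl

theorem lift_mul (a b : LT M) : lift (a * b) = lift a * lift b := by
  apply lp.ext
  funext q
  rw [lp.infty_coeFn_mul, Pi.mul_apply, lift_apply, lift_apply, lift_apply, lp.infty_coeFn_mul,
    Pi.mul_apply]

/-- The ambient action. -/
def bigact (a : Amb M) (z : Big M) : Big M := (lift a.1 * z.1, a.2 * z.2)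

theorem norm_bigact_le (a : Amb M) (z : Big M) : ‖bigact a z‖ ≤ ‖a‖ * ‖z‖ := by
  unfold bigact
  refine norm_prod_le_iff.2 ⟨?_, ?_⟩
  · refine (norm_mul_le _ _).trans ?_
    exact mul_le_mul ((norm_lift_le _).trans (norm_fst_le a)) (norm_fst_le z) (norm_nonneg _)
      (norm_nonneg _)
  · refine (norm_mul_le _ _).trans ?_
    exact mul_le_mul (norm_snd_le a) (norm_snd_le z) (norm_nonneg _) (norm_nonneg _)

variable (P)

/-- The module `X`. -/
def XX : Submodule ℂ (Big M) where
  carrier := {z | (∀ s, {x | (z.1 : LBT M) (x, s) ≠ 0}.Countable) ∧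
    (∀ x, Tendsto (fun n => (z.1 : LBT M) (x, nd x n) - (z.2 : LB) x • P (x n)) atTop (𝓝 0)) ∧
    {x | (z.2 : LB) x ≠ 0}.Countable}
  add_mem' := by
    rintro z w ⟨h1, h2, h3⟩ ⟨k1, k2, k3⟩
    refine ⟨fun s => ?_, fun x => ?_, ?_⟩
    · refine ((h1 s).union (k1 s)).mono ?_
      intro x hx
      by_contra hcon
      simp only [Set.mem_union, not_or] at hcon
      apply hx
      have e1 : (z.1 : LBT M) (x, s) = 0 := by by_contra h; exact hcon.1 h
      have e2 : (w.1 : LBT M) (x, s) = 0 := by by_contra h; exact hcon.2 h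
      rw [Prod.fst_add, lp.coeFn_add, Pi.add_apply, e1, e2, add_zero]
    · have := (h2 x).add (k2 x)
      rw [add_zero] at this
      refine this.congr fun n => ?_
      rw [Prod.fst_add, Prod.snd_add, lp.coeFn_add, lp.coeFn_add, Pi.add_apply, Pi.add_apply,
        add_smul]
      abel
    · refine (h3.union k3).mono ?_
      intro x hx
      by_contra hcon
      simp only [Set.mem_union, not_or] at hcon
      apply hx
      have e1 : (z.2 : LB) x = 0 := by by_contra h; exact hcon.1 h
      have e2 : (w.2 : LB) x = 0 := by by_contra h; exact hcon.2 h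
      rw [Prod.snd_add, lp.coeFn_add, Pi.add_apply, e1, e2, add_zero]
  zero_mem' := by
    refine ⟨fun s => ?_, fun x => ?_, ?_⟩
    · simp
    · simp
    · simp
  smul_mem' := by
    rintro c z ⟨h1, h2, h3⟩
    refine ⟨fun s => ?_, fun x => ?_, ?_⟩
    · refine (h1 s).mono ?_
      intro x hx h
      apply hx
      rw [Prod.smul_fst, lp.coeFn_smul, Pi.smul_apply, h, smul_zero]
    · have := (h2 x).const_smul c
      rw [smul_zero] at this
      refine this.congr fun n => ?_
      rw [Prod.smul_fst, Prod.smul_snd, lp.coeFn_smul, lp.coeFn_smul, Pi.smul_apply,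
        Pi.smul_apply, smul_sub, smul_smul, smul_eq_mul]
    · refine h3.mono ?_
      intro x hx h
      apply hx
      rw [Prod.smul_snd, lp.coeFn_smul, Pi.smul_apply, h, smul_zero]

/-- The module `Y`. -/
def YY : Submodule ℂ LB where
  carrier := {y | {x | (y : LB) x ≠ 0}.Countable}
  add_mem' := by
    intro z w h3 k3
    refine (Set.Countable.union h3 k3).mono ?_
    intro x hx
    by_contra hcon
    simp only [Set.mem_union, not_or] at hcon
    apply hx
    have e1 : (z : LB) x = 0 := by by_contra h; exact hcon.1 h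
    have e2 : (w : LB) x = 0 := by by_contra h; exact hcon.2 h
    rw [lp.coeFn_add, Pi.add_apply, e1, e2, add_zero]
  zero_mem' := by simp
  smul_mem' := by
    intro c z h3
    refine Set.Countable.mono ?_ h3
    intro x hx h
    apply hx
    rw [lp.coeFn_smul, Pi.smul_apply, h, smul_zero]

variable {P}

theorem big_fst_apply_le (a b : Big M) (q : Br × Nd) :
    ‖(a.1 : LBT M) q - (b.1 : LBT M) q‖ ≤ ‖a - b‖ := by
  calc ‖(a.1 : LBT M) q - (b.1 : LBT M) q‖ = ‖(a.1 - b.1 : LBT M) q‖ := by
        rw [lp.coeFn_sub, Pi.sub_apply]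
    _ ≤ ‖a.1 - b.1‖ := lp.norm_apply_le_norm (by norm_num) _ _
    _ ≤ ‖a - b‖ := norm_fst_le (a - b)

theorem lb_apply_le (a b : LB) (x : Br) : ‖(a : LB) x - (b : LB) x‖ ≤ ‖a - b‖ := by
  calc ‖(a : LB) x - (b : LB) x‖ = ‖(a - b : LB) x‖ := by
        rw [lp.coeFn_sub, Pi.sub_apply]
    _ ≤ ‖a - b‖ := lp.norm_apply_le_norm (by norm_num) _ _

/-- Countability of supports passes to limits. -/
theorem countable_limit {ι E Z : Type} [NormedAddCommGroup E] (F : Z → ι → E) (z : Z)
    (w : ℕ → Z) (h : ∀ k i, ‖F z i - F (w k) i‖ ≤ 1 / ((k : ℝ) + 1))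
    (hw : ∀ k, {i | F (w k) i ≠ 0}.Countable) : {i | F z i ≠ 0}.Countable := by
  refine (Set.countable_iUnion hw).mono ?_
  intro i hi
  obtain ⟨k, hk⟩ := exists_nat_one_div_lt (norm_pos_iff.2 hi)
  refine Set.mem_iUnion.2 ⟨k, ?_⟩
  intro h0
  have := h k i
  rw [h0, sub_zero] at this
  linarith

theorem XX_closed : IsClosed (XX P : Set (Big M)) := by
  apply isClosed_of_closure_subset
  intro z hz
  have happrox : ∀ ε > 0, ∃ w ∈ XX P, ‖z - w‖ < ε := by
    intro ε hε
    obtain ⟨w, hw, h⟩ := Metric.mem_closure_iff.1 hz ε hε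
    exact ⟨w, hw, by rwa [dist_eq_norm] at h⟩
  choose w hw hzw using fun k : ℕ => happrox (1 / ((k : ℝ) + 1)) (by positivity)
  refine ⟨fun s => ?_, fun x => ?_, ?_⟩
  · exact countable_limit (fun (z : Big M) x => (z.1 : LBT M) (x, s)) z w
      (fun k x => (big_fst_apply_le z (w k) (x, s)).trans (hzw k).le) (fun k => (hw k).1 s)
  · rw [Metric.tendsto_atTop]
    intro ε hε
    have hPB := PB_nonneg P
    obtain ⟨v, hv, hzv⟩ := happrox (ε / (2 * (1 + PB P))) (by positivity)
    obtain ⟨N, hN⟩ := Metric.tendsto_atTop.1 (hv.2.1 x) (ε / 2) (by positivity)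
    refine ⟨N, fun n hn => ?_⟩
    have h1 := hN n hn
    rw [dist_zero_right] at h1 ⊢
    have h2 := big_fst_apply_le z v (x, nd x n)
    have h3 : ‖(z.2 : LB) x - (v.2 : LB) x‖ ≤ ‖z - v‖ :=
      (lb_apply_le z.2 v.2 x).trans (norm_snd_le (z - v))
    have h4 : (z.1 : LBT M) (x, nd x n) - (z.2 : LB) x • P (x n) =
        ((v.1 : LBT M) (x, nd x n) - (v.2 : LB) x • P (x n)) +
        ((z.1 : LBT M) (x, nd x n) - (v.1 : LBT M) (x, nd x n)) -
        ((z.2 : LB) x - (v.2 : LB) x) • P (x n) := by
      rw [sub_smul]; abel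
    rw [h4]
    have h5 : (1 + PB P) * (ε / (2 * (1 + PB P))) = ε / 2 := by field_simp
    calc _ ≤ ‖(v.1 : LBT M) (x, nd x n) - (v.2 : LB) x • P (x n)‖ +
          ‖(z.1 : LBT M) (x, nd x n) - (v.1 : LBT M) (x, nd x n)‖ +
          ‖((z.2 : LB) x - (v.2 : LB) x) • P (x n)‖ :=
          (norm_sub_le _ _).trans (add_le_add_left (norm_add_le _ _) _)
      _ ≤ ‖(v.1 : LBT M) (x, nd x n) - (v.2 : LB) x • P (x n)‖ + ‖z - v‖ + ‖z - v‖ * PB P := by
          rw [norm_smul]
          gcongr
          exact P_le_PB P _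
      _ < ε := by nlinarith
  · exact countable_limit (fun (z : Big M) x => (z.2 : LB) x) z w
      (fun k x => (lb_apply_le z.2 (w k).2 x).trans ((norm_snd_le (z - w k)).trans (hzw k).le))
      (fun k => (hw k).2.2)

theorem YY_closed : IsClosed (YY : Set LB) := by
  apply isClosed_of_closure_subset
  intro z hz
  have happrox : ∀ ε > 0, ∃ w ∈ YY, ‖z - w‖ < ε := by
    intro ε hε
    obtain ⟨w, hw, h⟩ := Metric.mem_closure_iff.1 hz ε hε
    exact ⟨w, hw, by rwa [dist_eq_norm] at h⟩
  choose w hw hzw using fun k : ℕ => happrox (1 / ((k : ℝ) + 1)) (by positivity)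
  exact countable_limit (fun (z : LB) x => (z : LB) x) z w
      (fun k x => (lb_apply_le z (w k) x).trans (hzw k).le)
      (fun k => hw k)

theorem bigact_mem {a : Amb M} (ha : a ∈ AA P hsa hidem) {z : Big M} (hz : z ∈ XX P) :
    bigact a z ∈ XX P := by
  obtain ⟨h1, h2, h3⟩ := hz
  refine ⟨fun s => ?_, fun x => ?_, ?_⟩
  · refine (h1 s).mono ?_
    intro x hx h
    apply hx
    show (lift a.1 * z.1 : LBT M) (x, s) = 0
    rw [lp.infty_coeFn_mul, Pi.mul_apply, h, mul_zero]
  · have hasy := AA_asymp ha x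
    -- boundedness
    have hb1 : ∀ n, ‖(a.1 : LT M) (nd x n)‖ ≤ ‖a.1‖ := fun n =>
      lp.norm_apply_le_norm (by norm_num) _ _
    have e1 : Tendsto (fun n => (a.1 : LT M) (nd x n) *
        ((z.1 : LBT M) (x, nd x n) - (z.2 : LB) x • P (x n))) atTop (𝓝 0) := by
      rw [tendsto_zero_iff_norm_tendsto_zero]
      have := ((h2 x).norm).const_mul ‖a.1‖
      rw [norm_zero, mul_zero] at this
      refine squeeze_zero (fun n => norm_nonneg _) (fun n => ?_) this
      refine (norm_mul_le _ _).trans ?_
      gcongr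
      exact hb1 n
    have e2 : Tendsto (fun n => ((a.1 : LT M) (nd x n) - (a.2 : LB) x • P (x n)) *
        ((z.2 : LB) x • P (x n))) atTop (𝓝 0) := by
      rw [tendsto_zero_iff_norm_tendsto_zero]
      have := (hasy.norm).mul_const (‖(z.2 : LB) x‖ * PB P)
      rw [norm_zero, zero_mul] at this
      refine squeeze_zero (fun n => norm_nonneg _) (fun n => ?_) this
      refine (norm_mul_le _ _).trans ?_
      gcongr
      rw [norm_smul]
      gcongr
      exact P_le_PB P _
    have e3 := e1.add e2
    rw [add_zero] at e3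
    refine e3.congr fun n => ?_
    show _ = (lift a.1 * z.1 : LBT M) (x, nd x n) - (a.2 * z.2 : LB) x • P (x n)
    rw [lp.infty_coeFn_mul, lp.infty_coeFn_mul, Pi.mul_apply, Pi.mul_apply, lift_apply]
    have e4 : ((a.2 : LB) x • P (x n)) * ((z.2 : LB) x • P (x n)) =
        ((a.2 : LB) x * (z.2 : LB) x) • P (x n) := by
      rw [smul_mul_smul_comm, hidem]
    rw [← e4, sub_mul, mul_sub]
    abel
  · refine h3.mono ?_
    intro x hx h
    apply hx
    show (a.2 * z.2 : LB) x = 0
    rw [lp.infty_coeFn_mul, Pi.mul_apply, h, mul_zero]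

theorem YY_mul_mem (a : LB) {y : LB} (hy : y ∈ YY) : a * y ∈ YY := by
  refine Set.Countable.mono ?_ hy
  intro x hx h
  apply hx
  rw [lp.infty_coeFn_mul, Pi.mul_apply, h, mul_zero]

/-! ### The actions -/

variable (P hsa hidem)

/-- The action of `A` on `X`. -/
def actX : BanachAction (AA P hsa hidem) (XX P) where
  act := LinearMap.mkContinuous₂
    (LinearMap.mk₂ ℂ (fun (a : AA P hsa hidem) (z : XX P) =>
        (⟨bigact (a : Amb M) z, bigact_mem a.2 z.2⟩ : XX P))
      (by
        intro a b z
        apply Subtype.ext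
        show bigact ((a : Amb M) + (b : Amb M)) z = bigact (a : Amb M) z + bigact (b : Amb M) z
        unfold bigact
        rw [Prod.fst_add, Prod.snd_add, lift_add, add_mul, add_mul]
        rfl)
      (by
        intro c a z
        apply Subtype.ext
        show bigact (c • (a : Amb M)) z = c • bigact (a : Amb M) z
        unfold bigact
        rw [Prod.smul_fst, Prod.smul_snd, lift_smul, smul_mul_assoc, smul_mul_assoc]
        rfl)
      (by
        intro a z w
        apply Subtype.ext
        show bigact (a : Amb M) ((z : Big M) + (w : Big M)) =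
          bigact (a : Amb M) z + bigact (a : Amb M) w
        unfold bigact
        rw [Prod.fst_add, Prod.snd_add, mul_add, mul_add]
        rfl)
      (by
        intro c a z
        apply Subtype.ext
        show bigact (a : Amb M) (c • (z : Big M)) = c • bigact (a : Amb M) z
        unfold bigact
        rw [Prod.smul_fst, Prod.smul_snd, mul_smul_comm, mul_smul_comm]
        rfl)) 1
    (fun a z => by
      rw [one_mul]
      exact norm_bigact_le (a : Amb M) (z : Big M))
  act_mul := by
    intro a b z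
    apply Subtype.ext
    show bigact ((a : Amb M) * (b : Amb M)) z = bigact (a : Amb M) (bigact (b : Amb M) z)
    unfold bigact
    rw [Prod.fst_mul, Prod.snd_mul, lift_mul, mul_assoc, mul_assoc]

/-- The action of `A` on `Y`. -/
def actY : BanachAction (AA P hsa hidem) YY where
  act := LinearMap.mkContinuous₂
    (LinearMap.mk₂ ℂ (fun (a : AA P hsa hidem) (y : YY) =>
        (⟨(a : Amb M).2 * (y : LB), YY_mul_mem _ y.2⟩ : YY))
      (fun a b y => Subtype.ext (add_mul (a : Amb M).2 (b : Amb M).2 (y : LB)))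
      (fun c a y => Subtype.ext (smul_mul_assoc c (a : Amb M).2 (y : LB)))
      (fun a y z => Subtype.ext (mul_add (a : Amb M).2 (y : LB) (z : LB)))
      (fun c a y => Subtype.ext (mul_smul_comm c (a : Amb M).2 (y : LB)))) 1
    (fun a y => by
      rw [one_mul]
      exact (norm_mul_le (a : Amb M).2 (y : LB)).trans
        (mul_le_mul_of_nonneg_right (norm_snd_le (a : Amb M)) (norm_nonneg _)))
  act_mul := fun a b y => Subtype.ext (mul_assoc (a : Amb M).2 (b : Amb M).2 (y : LB))

variable {P hsa hidem}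

theorem actX_apply (a : AA P hsa hidem) (z : XX P) :
    (((actX P hsa hidem).act a z : XX P) : Big M) = bigact (a : Amb M) z := rfl

theorem actY_apply (a : AA P hsa hidem) (y : YY) :
    (((actY P hsa hidem).act a y : YY) : LB) = (a : Amb M).2 * (y : LB) := rfl

/-- The epimorphism `σ : X → Y`. -/
def sig (P : Bool → M) : XX P →L[ℂ] YY :=
  LinearMap.mkContinuous
    { toFun := fun z => (⟨(z : Big M).2, z.2.2.2⟩ : YY)
      map_add' := fun _ _ => rfl
      map_smul' := fun _ _ => rfl } 1
    (fun z => by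
      rw [one_mul]
      exact norm_snd_le (z : Big M))

theorem sig_apply (z : XX P) : ((sig P z : YY) : LB) = (z : Big M).2 := rfl

/-- `(x, s) ↦ y x • p_x(s)`. -/
def tauf (P : Bool → M) (y : LB) : LBT M := ⟨fun q => (y : LB) q.1 • pfun P q.1 q.2,
  memlp_of_bound _ (‖y‖ * PB P) (fun q => by
    rw [norm_smul]
    exact mul_le_mul (lp.norm_apply_le_norm (by norm_num) y q.1) (norm_pfun_le P q.1 q.2)
      (norm_nonneg _) (norm_nonneg _))⟩

theorem tauf_apply (y : LB) (q : Br × Nd) :
    (tauf P y : LBT M) q = (y : LB) q.1 • pfun P q.1 q.2 := rfl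

theorem norm_tauf_le (y : LB) : ‖tauf P y‖ ≤ PB P * ‖y‖ := by
  apply lp.norm_le_of_forall_le (mul_nonneg (PB_nonneg P) (norm_nonneg _))
  intro q
  rw [tauf_apply, norm_smul, mul_comm (PB P)]
  exact mul_le_mul (lp.norm_apply_le_norm (by norm_num) y q.1) (norm_pfun_le P q.1 q.2)
      (norm_nonneg _) (norm_nonneg _)

theorem tauf_mem {y : LB} (hy : y ∈ YY) : ((tauf P y, y) : Big M) ∈ XX P := by
  refine ⟨fun s => ?_, fun x => ?_, hy⟩
  · refine Set.Countable.mono ?_ hy
    intro x hx h
    apply hx
    show (y : LB) x • pfun P x s = 0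
    rw [h, zero_smul]
  · refine tendsto_const_nhds.congr fun n => ?_
    show 0 = (y : LB) x • pfun P x (nd x n) - (y : LB) x • P (x n)
    rw [pfun_nd, sub_self]

/-- The bounded linear right inverse of `σ`. -/
def tau (P : Bool → M) : YY →L[ℂ] XX P :=
  LinearMap.mkContinuous
    { toFun := fun y => (⟨(tauf P y, y), tauf_mem y.2⟩ : XX P)
      map_add' := by
        intro y z
        apply Subtype.ext
        show ((tauf P ((y : LB) + (z : LB)), (y : LB) + (z : LB)) : Big M) =
          (tauf P y, (y : LB)) + (tauf P z, (z : LB))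
        rw [Prod.mk_add_mk]
        congr 1
        apply lp.ext
        funext q
        rw [lp.coeFn_add, Pi.add_apply, tauf_apply, tauf_apply, tauf_apply, lp.coeFn_add,
          Pi.add_apply, add_smul]
      map_smul' := by
        intro c y
        apply Subtype.ext
        show ((tauf P (c • (y : LB)), c • (y : LB)) : Big M) = c • (tauf P y, (y : LB))
        rw [Prod.smul_mk]
        congr 1
        apply lp.ext
        funext q
        rw [lp.coeFn_smul, Pi.smul_apply, tauf_apply, tauf_apply, lp.coeFn_smul,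
          Pi.smul_apply, smul_smul, smul_eq_mul] } (PB P + 1)
    (fun y => by
      have hPB := PB_nonneg P
      have h0 : 0 ≤ ‖y‖ := norm_nonneg _
      refine norm_prod_le_iff.2 ⟨?_, ?_⟩
      · refine (norm_tauf_le (P := P) (y : LB)).trans ?_
        have : ‖(y : LB)‖ = ‖y‖ := rfl
        rw [this]
        nlinarith
      · show ‖(y : LB)‖ ≤ _
        have : ‖(y : LB)‖ = ‖y‖ := rfl
        rw [this]
        nlinarith)

theorem sig_tau (y : YY) : sig P (tau P y) = y := rfl

/-! ### Special elements of `A` -/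

/-- the central element `q_s` -/
def qel (P : Bool → M) (hsa : ∀ i, star (P i) = P i) (hidem : ∀ i, P i * P i = P i) (s : Nd) :
    AA P hsa hidem :=
  ⟨(lp.single ∞ s (1 : M), 0), S0_le_AA ⟨0, by intro x; simp, by
    rw [map_zero, sub_zero]
    apply J_of_finite {s} (Set.finite_singleton s)
    intro t ht
    exact lp.single_apply_ne _ _ _ ht⟩⟩

open Classical in
/-- the element `(p_x, δ_x)` -/
def ppel (P : Bool → M) (hsa : ∀ i, star (P i) = P i) (hidem : ∀ i, P i * P i = P i) (x : Br) :
    AA P hsa hidem :=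
  ⟨(pel P x, lp.single ∞ x (1 : ℂ)), S0_le_AA ⟨Finsupp.single x 1, by
      intro y
      show (lp.single ∞ x (1 : ℂ) : LB) y = _
      rw [lp.single_apply, Finsupp.single_apply, Pi.single_apply]
      by_cases h : x = y
      · subst h; simp
      · rw [if_neg h, if_neg (Ne.symm h)], by
    show pel P x - Phi P (Finsupp.single x 1) ∈ J M
    rw [Phi_single, one_smul, sub_self]
    exact (J M).zero_mem⟩⟩

open Classical in
theorem ppel_snd_self (x : Br) :
    (((ppel P hsa hidem x : AA P hsa hidem) : Amb M).2 : LB) x = 1 :=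
  lp.single_apply_self _ _ _

theorem qel_mul_comm (s : Nd) (a : AA P hsa hidem) :
    qel P hsa hidem s * a = a * qel P hsa hidem s := by
  apply Subtype.ext
  show ((lp.single ∞ s (1 : M), 0) : Amb M) * (a : Amb M) = (a : Amb M) * (lp.single ∞ s (1 : M), 0)
  ext1
  · rw [Prod.fst_mul, Prod.fst_mul]
    apply lp.ext
    funext t
    rw [lp.infty_coeFn_mul, lp.infty_coeFn_mul, Pi.mul_apply, Pi.mul_apply]
    by_cases h : t = s
    · subst h
      rw [lp.single_apply_self, one_mul, mul_one]
    · rw [lp.single_apply_ne _ _ _ h, zero_mul, mul_zero]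
  · rw [Prod.snd_mul, Prod.snd_mul]
    simp

theorem not_countable_univ : ¬ (Set.univ : Set Br).Countable := by
  intro h
  rw [Set.countable_univ_iff] at h
  obtain ⟨F, hF⟩ := exists_surjective_nat Br
  obtain ⟨n, hn⟩ := hF (fun n => !(F n n))
  have := congrFun hn n
  simp at this

variable (P hsa hidem) in
/-- `A` as a left ideal of itself -/
abbrev TopA : Submodule ℂ (AA P hsa hidem) := ⊤

theorem topA_mem (a x : AA P hsa hidem) (_ : x ∈ TopA P hsa hidem) :
    a * x ∈ TopA P hsa hidem := Submodule.mem_top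

/-- elements of `A` as elements of the ideal `A` -/
def inT (a : AA P hsa hidem) : TopA P hsa hidem := ⟨a, Submodule.mem_top⟩

theorem psi_comm (ψ : TopA P hsa hidem →L[ℂ] XX P)
    (hψ : IsModuleMap (leftIdealAction (TopA P hsa hidem) topA_mem) (actX P hsa hidem) ψ)
    (a b : AA P hsa hidem) (hab : a * b = b * a) :
    (actX P hsa hidem).act a (ψ (inT b)) = (actX P hsa hidem).act b (ψ (inT a)) := by
  have h1 := hψ a (inT b)
  have h2 := hψ b (inT a)
  have h3 : (leftIdealAction (TopA P hsa hidem) topA_mem).act a (inT b) =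
      (leftIdealAction (TopA P hsa hidem) topA_mem).act b (inT a) := Subtype.ext hab
  rw [← h1, ← h2, h3]

theorem psi_key (ψ : TopA P hsa hidem →L[ℂ] XX P)
    (hψ : IsModuleMap (leftIdealAction (TopA P hsa hidem) topA_mem) (actX P hsa hidem) ψ)
    (x : Br) (s : Nd) (hx : ((ψ (inT (qel P hsa hidem s)) : Big M).1 : LBT M) (x, s) = 0) :
    ((ψ (inT (ppel P hsa hidem x)) : Big M).1 : LBT M) (x, s) = 0 := by
  have h1 := psi_comm ψ hψ (qel P hsa hidem s) (ppel P hsa hidem x) (qel_mul_comm s _)
  have h2 := congrArg (fun z : XX P => ((z : Big M).1 : LBT M) (x, s)) h1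
  have h4 : ∀ (a : AA P hsa hidem) (z : XX P),
      (((((actX P hsa hidem).act a z : XX P) : Big M).1 : LBT M) (x, s)) =
        ((a : Amb M).1 : LT M) s * ((z : Big M).1 : LBT M) (x, s) := by
    intro a z
    rw [actX_apply]
    show (lift (a : Amb M).1 * (z : Big M).1 : LBT M) (x, s) = _
    rw [lp.infty_coeFn_mul, Pi.mul_apply, lift_apply]
  have h5 := (h4 _ _).symm.trans (h2.trans (h4 _ _))
  have h3 : (((qel P hsa hidem s : AA P hsa hidem) : Amb M).1 : LT M) s = 1 :=
    lp.single_apply_self _ _ _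
  rw [h3, one_mul, hx, mul_zero] at h5
  exact h5

/-- **The tree algebra is not left projective**, so not hereditary. -/
theorem not_hereditary (hne : P false * P true ≠ P true * P false) :
    ¬ IsHereditary.{0, 0} (AA P hsa hidem) := by
  intro hH
  have hP0 : ∀ i, P i ≠ 0 := by
    intro i hi
    apply hne
    cases i
    · rw [hi, zero_mul, mul_zero]
    · rw [hi, zero_mul, mul_zero]
  have hXc : CompleteSpace (XX P) := XX_closed.completeSpace_coe
  have hYc : CompleteSpace YY := YY_closed.completeSpace_coe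
  have hproj := hH (TopA P hsa hidem) topA_mem isClosed_univ
  -- the morphism φ
  let φ : TopA P hsa hidem →L[ℂ] YY :=
    LinearMap.mkContinuous
      { toFun := fun a => (⟨((a : AA P hsa hidem) : Amb M).2, AA_snd_countable a.1.2⟩ : YY)
        map_add' := fun _ _ => rfl
        map_smul' := fun _ _ => rfl } 1
      (fun a => by
        rw [one_mul]
        exact norm_snd_le ((a : AA P hsa hidem) : Amb M))
  have hφ : ∀ a, ((φ a : YY) : LB) = ((a : AA P hsa hidem) : Amb M).2 := fun a => rfl
  obtain ⟨ψ, hψ, hσψ⟩ := hproj (XX P) YY (actX P hsa hidem) (actY P hsa hidem) (sig P) φ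
    (by intro a z; apply Subtype.ext; rfl) ⟨tau P, sig_tau⟩
    (by intro a x; apply Subtype.ext; rfl)
  have hcount : (⋃ s, {x | ((ψ (inT (qel P hsa hidem s)) : Big M).1 : LBT M) (x, s) ≠ 0}).Countable :=
    Set.countable_iUnion fun s => (ψ (inT (qel P hsa hidem s))).2.1 s
  obtain ⟨x, hx⟩ : ∃ x, x ∉ ⋃ s, {x | ((ψ (inT (qel P hsa hidem s)) : Big M).1 : LBT M) (x, s) ≠ 0} := by
    by_contra hcon
    push Not at hcon
    exact not_countable_univ (hcount.mono fun x _ => hcon x)
  have hx' : ∀ s, ((ψ (inT (qel P hsa hidem s)) : Big M).1 : LBT M) (x, s) = 0 := by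
    intro s
    by_contra h
    exact hx (Set.mem_iUnion.2 ⟨s, h⟩)
  set z : XX P := ψ (inT (ppel P hsa hidem x)) with hz
  -- `ψ(p_x)` vanishes on `(x, ·)`
  have hzero : ∀ s, ((z : Big M).1 : LBT M) (x, s) = 0 := fun s => psi_key ψ hψ x s (hx' s)
  -- so its value at `x` is zero
  have hval : ((z : Big M).2 : LB) x = 0 := by
    have h1 := z.2.2.1 x
    have h2 : Tendsto (fun n => ((z : Big M).2 : LB) x • P (x n)) atTop (𝓝 0) := by
      have h3 := h1.neg
      rw [neg_zero] at h3
      refine h3.congr fun n => ?_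
      rw [hzero, zero_sub, neg_neg]
    by_contra hne0
    -- the norms are bounded below
    set δ := min ‖P false‖ ‖P true‖ with hδ
    have hδ0 : 0 < δ := lt_min (norm_pos_iff.2 (hP0 _)) (norm_pos_iff.2 (hP0 _))
    have h4 : ∀ n, ‖((z : Big M).2 : LB) x‖ * δ ≤ ‖((z : Big M).2 : LB) x • P (x n)‖ := by
      intro n
      rw [norm_smul]
      gcongr
      cases x n
      · exact min_le_left _ _
      · exact min_le_right _ _
    have h5 := h2.norm
    rw [norm_zero] at h5
    have h6 := ge_of_tendsto' h5 h4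
    have h7 : 0 < ‖((z : Big M).2 : LB) x‖ := norm_pos_iff.2 hne0
    nlinarith
  -- but it is one
  have hone : ((z : Big M).2 : LB) x = 1 := by
    have h1 := hσψ (inT (ppel P hsa hidem x))
    have h2 : ((z : Big M).2 : LB) = ((ppel P hsa hidem x : AA P hsa hidem) : Amb M).2 := by
      have h3 := congrArg (fun y : YY => (y : LB)) h1
      exact h3
    rw [h2]
    exact ppel_snd_self x
  rw [hval] at hone
  exact zero_ne_one hone

end

end Pool.Agent.Helper40.Hered
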