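import Pool.Agent.Helper40.Hered.Separable
import Pool.Agent.Helper40.Hered.Comm
import Pool.Agent.Helper40.Hered.NonProj

/-! Assembly of the example. -/

namespace Pool.Agent.Helper40.Hered

noncomputable section

open Filter Topology
open scoped ComplexOrder

universe u v w

/-! ### Change of universe of the test modules -/

/-- transport of an action along an isomorphism -/
def BanachAction.transport {A : Type u} {X : Type v} {X' : Type w} [NonUnitalNormedRing A]
    [NormedSpace ℂ A] [NormedAddCommGroup X] [NormedSpace ℂ X] [NormedAddCommGroup X']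
    [NormedSpace ℂ X'] (e : X ≃L[ℂ] X') (a : BanachAction A X) : BanachAction A X' where
  act := ((e.arrowCongr e : (X →L[ℂ] X) ≃L[ℂ] (X' →L[ℂ] X')) :
    (X →L[ℂ] X) →L[ℂ] (X' →L[ℂ] X')).comp a.act
  act_mul := by
    intro b c x
    show e (a.act (b * c) (e.symm x)) = e (a.act b (e.symm (e (a.act c (e.symm x)))))
    rw [a.act_mul, e.symm_apply_apply]

theorem BanachAction.transport_apply {A : Type u} {X : Type v} {X' : Type w}
    [NonUnitalNormedRing A]
    [NormedSpace ℂ A] [NormedAddCommGroup X] [NormedSpace ℂ X] [NormedAddCommGroup X']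
    [NormedSpace ℂ X'] (e : X ≃L[ℂ] X') (a : BanachAction A X) (b : A) (x : X') :
    (a.transport e).act b x = e (a.act b (e.symm x)) := rfl

theorem IsProjective.down {A : Type u} {Q : Type w} [NonUnitalNormedRing A] [NormedSpace ℂ A]
    [NormedAddCommGroup Q] [NormedSpace ℂ Q] {aQ : BanachAction A Q}
    (h : IsProjective.{u, v, w} aQ) : IsProjective.{u, 0, w} aQ := by
  intro X Y _ _ _ _ _ _ aX aY σ φ hσ hτ hφ
  obtain ⟨τ, hτ⟩ := hτ
  let eX : X ≃L[ℂ] ULift.{v} X := (ContinuousLinearEquiv.ulift (R₁ := ℂ) (M₁ := X)).symm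
  let eY : Y ≃L[ℂ] ULift.{v} Y := (ContinuousLinearEquiv.ulift (R₁ := ℂ) (M₁ := Y)).symm
  let σ' : ULift.{v} X →L[ℂ] ULift.{v} Y :=
    (eY : Y →L[ℂ] ULift.{v} Y).comp (σ.comp (eX.symm : ULift.{v} X →L[ℂ] X))
  let τ' : ULift.{v} Y →L[ℂ] ULift.{v} X :=
    (eX : X →L[ℂ] ULift.{v} X).comp (τ.comp (eY.symm : ULift.{v} Y →L[ℂ] Y))
  let φ' : Q →L[ℂ] ULift.{v} Y := (eY : Y →L[ℂ] ULift.{v} Y).comp φ
  have e1 : ∀ x, σ' x = eY (σ (eX.symm x)) := fun x => rfl
  have e2 : ∀ y, τ' y = eX (τ (eY.symm y)) := fun y => rfl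
  have e3 : ∀ q, φ' q = eY (φ q) := fun q => rfl
  obtain ⟨ψ, hψ, hψσ⟩ := h (ULift.{v} X) (ULift.{v} Y) (aX.transport eX) (aY.transport eY) σ' φ'
    (by
      intro a x
      rw [BanachAction.transport_apply, BanachAction.transport_apply, e1, e1,
        eX.symm_apply_apply, eY.symm_apply_apply, hσ])
    ⟨τ', by
      intro y
      rw [e1, e2, eX.symm_apply_apply, hτ, eY.apply_symm_apply]⟩
    (by
      intro a x
      rw [BanachAction.transport_apply, e3, e3, eY.symm_apply_apply, hφ])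
  refine ⟨(eX.symm : ULift.{v} X →L[ℂ] X).comp ψ, ?_, ?_⟩
  · intro a x
    show eX.symm (ψ (aQ.act a x)) = aX.act a (eX.symm (ψ x))
    rw [hψ, BanachAction.transport_apply, eX.symm_apply_apply]
  · intro x
    show σ (eX.symm (ψ x)) = φ x
    have h1 := hψσ x
    rw [e1, e3] at h1
    exact eY.injective h1

theorem IsHereditary.down {A : Type u} [NonUnitalNormedRing A] [NormedSpace ℂ A]
    [IsScalarTower ℂ A A] [SMulCommClass ℂ A A] (h : IsHereditary.{u, v} A) :
    IsHereditary.{u, 0} A := fun I hI hc => (h I hI hc).down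

/-! ### The two projections -/

/-- `2 × 2` complex matrices. -/
abbrev M2 : Type := CStarMatrix (Fin 2) (Fin 2) ℂ

instance : FiniteDimensional ℂ M2 :=
  (CStarMatrix.ofMatrixₗ (R := ℂ) (m := Fin 2) (n := Fin 2) (A := ℂ)).finiteDimensional

instance : TopologicalSpace.SeparableSpace M2 := by
  have : ProperSpace M2 := FiniteDimensional.proper ℂ M2
  infer_instance

/-- two non-commuting projections -/
def PP : Bool → M2
  | false => CStarMatrix.ofMatrix !![1, 0; 0, 0]
  | true => CStarMatrix.ofMatrix !![1/2, 1/2; 1/2, 1/2]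

theorem PP_sa (i : Bool) : star (PP i) = PP i := by
  cases i <;> ext a b <;> fin_cases a <;> fin_cases b <;>
    simp [PP, CStarMatrix.star_apply]

theorem PP_idem (i : Bool) : PP i * PP i = PP i := by
  cases i <;> ext a b <;> fin_cases a <;> fin_cases b <;>
    simp [PP, CStarMatrix.mul_apply, Fin.sum_univ_two] <;> norm_num

theorem PP_ne : PP false * PP true ≠ PP true * PP false := by
  intro h
  have h1 := congrArg (fun A : M2 => A 0 1) h
  simp [PP, CStarMatrix.mul_apply, Fin.sum_univ_two] at h1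

/-- The algebra. -/
abbrev TreeAlg : Type := AA PP PP_sa PP_idem

theorem separable_of_comm (B : NonUnitalStarSubalgebra ℂ TreeAlg)
    (hcomm : ∀ x ∈ B, ∀ y ∈ B, x * y = y * x) : TopologicalSpace.SeparableSpace B := by
  set W : Set (Amb M2) := (fun a : TreeAlg => (a : Amb M2)) '' (B : Set TreeAlg) with hW
  have hW1 : ∀ a ∈ W, a ∈ AA PP PP_sa PP_idem := by
    rintro _ ⟨a, -, rfl⟩
    exact a.2
  have hW2 : ∀ (c : ℂ), ∀ a ∈ W, c • a ∈ W := by
    rintro c _ ⟨a, ha, rfl⟩
    exact ⟨c • a, SMulMemClass.smul_mem c ha, rfl⟩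
  have hW3 : ∀ a ∈ W, ∀ b ∈ W, a * b = b * a := by
    rintro _ ⟨a, ha, rfl⟩ _ ⟨b, hb, rfl⟩
    exact congrArg (fun z : TreeAlg => (z : Amb M2)) (hcomm a ha b hb)
  have hcount := countable_of_comm PP_ne W hW1 hW2 hW3
  have hsep := separable_of_countable W hW1 _ hcount (by
    intro a ha x hx
    by_contra hne
    exact hx ⟨a, ha, hne⟩)
  have hind : Topology.IsInducing (fun b : B => ((b : TreeAlg) : Amb M2)) :=
    Topology.IsInducing.subtypeVal.comp Topology.IsInducing.subtypeVal
  have h1 := hind.isSeparable_preimage hsep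
  have h2 : (fun b : B => ((b : TreeAlg) : Amb M2)) ⁻¹' W = Set.univ := by
    ext b
    simp only [Set.mem_preimage, Set.mem_univ, iff_true]
    exact ⟨b, b.2, rfl⟩
  rw [h2] at h1
  exact TopologicalSpace.isSeparable_univ_iff.1 h1

theorem hereditary_of_comm (B : NonUnitalStarSubalgebra ℂ TreeAlg)
    (hclosed : IsClosed (B : Set TreeAlg))
    (hcomm : ∀ x ∈ B, ∀ y ∈ B, x * y = y * x) : IsHereditary.{0, v} B := by
  have := separable_of_comm B hcomm
  let _ : NonUnitalCStarAlgebra B :=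
    NonUnitalStarSubalgebra.nonUnitalCStarAlgebra B (h_closed := hclosed)
  exact hereditary_of_separable B

end

end Pool.Agent.Helper40.Hered
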