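import Pool.Agent.Helper40.Hered.Defs
import Pool.Agent.Helper40.Hered.Estimate

/-! Separable C*-algebras are hereditary. -/

namespace Pool.Agent.Helper40.Hered

noncomputable section

open Filter Topology

universe u v

/-- Choice of signs for a bilinear expression. -/
theorem exists_signs_bilin {V W Z : Type*} [NormedAddCommGroup V] [NormedSpace ℂ V]
    [NormedAddCommGroup W] [NormedSpace ℂ W] [NormedAddCommGroup Z] [NormedSpace ℂ Z]
    (β : V →L[ℂ] W →L[ℂ] Z) (x : ℕ → V) (y : ℕ → W) (S : Finset ℕ) :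
    ∀ (a : V) (b : W), ∃ ε : ℕ → ℝ, (∀ n, |ε n| ≤ 1) ∧
      ‖β a b + ∑ n ∈ S, β (x n) (y n)‖ ≤
        ‖β (a + ∑ n ∈ S, (ε n : ℂ) • x n) (b + ∑ n ∈ S, (ε n : ℂ) • y n)‖ := by
  classical
  induction S using Finset.induction_on with
  | empty =>
    intro a b
    exact ⟨fun _ => 1, by simp, by simp⟩
  | insert m S hm ih =>
    intro a b
    obtain ⟨ε1, h1, h1'⟩ := ih (a + x m) (b + y m)
    obtain ⟨ε2, h2, h2'⟩ := ih (a - x m) (b - y m)
    have hsplit : β a b + ∑ n ∈ insert m S, β (x n) (y n) =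
        (1/2 : ℂ) • (β (a + x m) (b + y m) + ∑ n ∈ S, β (x n) (y n)) +
        (1/2 : ℂ) • (β (a - x m) (b - y m) + ∑ n ∈ S, β (x n) (y n)) := by
      rw [Finset.sum_insert hm]
      simp only [map_add, map_sub, add_apply, sub_apply]
      module
    have key : ∀ (s : ℝ) (ε : ℕ → ℝ), |s| ≤ 1 → (∀ n, |ε n| ≤ 1) →
        (∀ n, |Function.update ε m s n| ≤ 1) ∧
        (∑ n ∈ insert m S, ((Function.update ε m s n : ℝ) : ℂ) • x n =
          (s : ℂ) • x m + ∑ n ∈ S, (ε n : ℂ) • x n) ∧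
        (∑ n ∈ insert m S, ((Function.update ε m s n : ℝ) : ℂ) • y n =
          (s : ℂ) • y m + ∑ n ∈ S, (ε n : ℂ) • y n) := by
      intro s ε hs hε
      refine ⟨?_, ?_, ?_⟩
      · intro n
        by_cases hn : n = m
        · subst hn; simpa using hs
        · simpa [Function.update_of_ne hn] using hε n
      · rw [Finset.sum_insert hm, Function.update_self]
        congr 1
        refine Finset.sum_congr rfl fun n hn => ?_
        have : n ≠ m := fun h => hm (h ▸ hn)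
        rw [Function.update_of_ne this]
      · rw [Finset.sum_insert hm, Function.update_self]
        congr 1
        refine Finset.sum_congr rfl fun n hn => ?_
        have : n ≠ m := fun h => hm (h ▸ hn)
        rw [Function.update_of_ne this]
    set P := β (a + x m) (b + y m) + ∑ n ∈ S, β (x n) (y n) with hP
    set Q := β (a - x m) (b - y m) + ∑ n ∈ S, β (x n) (y n) with hQ
    have hle : ‖(1/2 : ℂ) • P + (1/2 : ℂ) • Q‖ ≤ max ‖P‖ ‖Q‖ := by
      calc ‖(1/2 : ℂ) • P + (1/2 : ℂ) • Q‖ ≤ ‖(1/2 : ℂ) • P‖ + ‖(1/2 : ℂ) • Q‖ := norm_add_le _ _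
        _ = 1/2 * ‖P‖ + 1/2 * ‖Q‖ := by
          rw [norm_smul, norm_smul]
          norm_num
        _ ≤ max ‖P‖ ‖Q‖ := by
          have := le_max_left ‖P‖ ‖Q‖
          have := le_max_right ‖P‖ ‖Q‖
          linarith
    rw [hsplit]
    rcases le_total ‖P‖ ‖Q‖ with hPQ | hPQ
    · obtain ⟨k1, k2, k3⟩ := key (-1) ε2 (by simp) h2
      refine ⟨Function.update ε2 m (-1), k1, hle.trans ?_⟩
      rw [max_eq_right hPQ, k2, k3]
      refine h2'.trans (le_of_eq ?_)
      congr 2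
      · congr 1
        simp only [Complex.ofReal_neg, Complex.ofReal_one]
        module
      · simp only [Complex.ofReal_neg, Complex.ofReal_one]
        module
    · obtain ⟨k1, k2, k3⟩ := key 1 ε1 (by simp) h1
      refine ⟨Function.update ε1 m 1, k1, hle.trans ?_⟩
      rw [max_eq_left hPQ, k2, k3]
      refine h1'.trans (le_of_eq ?_)
      congr 2
      · congr 1
        simp only [Complex.ofReal_one]
        module
      · simp only [Complex.ofReal_one]
        module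

section Pos

variable {B : Type u} [NonUnitalCStarAlgebra B] [PartialOrder B] [StarOrderedRing B]

/-- A separable closed left ideal contains a positive element dominating multiples of `x* x`
for a dense set of `x`. -/
theorem exists_pos_element (I : Submodule ℂ B) (hI : ∀ (a x : B), x ∈ I → a * x ∈ I)
    (hc : IsClosed (I : Set B)) [TopologicalSpace.SeparableSpace I] :
    ∃ h : B, h ∈ I ∧ 0 ≤ h ∧ ∃ x : ℕ → I, DenseRange x ∧
      ∀ n, ∃ C : ℝ, 0 ≤ C ∧ star (x n : B) * (x n : B) ≤ C • h := by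
  let x : ℕ → I := TopologicalSpace.denseSeq I
  have hx : DenseRange x := TopologicalSpace.denseRange_denseSeq I
  set c : ℕ → ℝ := fun n => (1/2) ^ n * (1 + ‖(x n : B)‖ ^ 2)⁻¹ with hcdef
  have hcpos : ∀ n, 0 < c n := fun n => by positivity
  set u : ℕ → B := fun n => c n • (star (x n : B) * (x n : B)) with hu
  have hunorm : ∀ n, ‖u n‖ ≤ (1/2) ^ n := by
    intro n
    rw [hu]
    simp only
    rw [norm_smul, Real.norm_eq_abs, abs_of_pos (hcpos n), CStarRing.norm_star_mul_self, ← sq]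
    rw [hcdef]
    simp only
    rw [mul_assoc]
    have h1 : (1 + ‖(x n : B)‖ ^ 2)⁻¹ * ‖(x n : B)‖ ^ 2 ≤ 1 := by
      rw [inv_mul_le_iff₀ (by positivity)]
      linarith
    have h2 : (0 : ℝ) ≤ (1/2) ^ n := by positivity
    nlinarith
  have hsum : Summable u := by
    apply Summable.of_norm_bounded _ hunorm
    exact summable_geometric_of_lt_one (by norm_num) (by norm_num)
  have hu0 : ∀ n, 0 ≤ u n := fun n => smul_nonneg (hcpos n).le (star_mul_self_nonneg _)
  have huI : ∀ n, u n ∈ I := by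
    intro n
    have h1 : star (x n : B) * (x n : B) ∈ I := hI _ _ (x n).2
    have h2 : u n = ((c n : ℝ) : ℂ) • (star (x n : B) * (x n : B)) := by
      rw [hu]
      simp
    rw [h2]
    exact I.smul_mem _ h1
  refine ⟨∑' n, u n, ?_, ?_, x, hx, ?_⟩
  · have h1 : Tendsto (fun N => ∑ n ∈ Finset.range N, u n) atTop (𝓝 (∑' n, u n)) :=
      hsum.hasSum.tendsto_sum_nat
    apply hc.mem_of_tendsto h1
    filter_upwards with N
    exact I.sum_mem fun n _ => huI n
  · exact tsum_nonneg hu0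
  · intro n
    refine ⟨(c n)⁻¹, (inv_pos.2 (hcpos n)).le, ?_⟩
    have h1 : u n ≤ ∑' n, u n := hsum.le_tsum n fun j _ => hu0 j
    have h2 : star (x n : B) * (x n : B) = (c n)⁻¹ • u n := by
      rw [hu]
      simp only
      rw [smul_smul, inv_mul_cancel₀ (hcpos n).ne', one_smul]
    rw [h2]
    exact smul_le_smul_of_nonneg_left h1 (inv_pos.2 (hcpos n)).le

/-- The tail condition. -/
def TailSmall (h x : B) : Prop :=
  ∀ δ > 0, ∃ N : ℕ, ∀ (S : Finset ℕ), (∀ n ∈ S, N ≤ n) → ∀ ε : ℕ → ℝ, (∀ n, |ε n| ≤ 1) →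
    ‖x * cfcₙ (FF S ε) h‖ ≤ δ

omit [PartialOrder B] [StarOrderedRing B] in
theorem norm_cfc_FF (h : B) (S : Finset ℕ) (ε : ℕ → ℝ) (hε : ∀ n, |ε n| ≤ 1) :
    ‖cfcₙ (FF S ε) h‖ ≤ 2 :=
  norm_cfcₙ_le fun t _ => FF_abs_le S ε hε t

omit [PartialOrder B] [StarOrderedRing B] in
theorem norm_cfc_e (h : B) (N : ℕ) : ‖cfcₙ (e N) h‖ ≤ 1 := by
  apply norm_cfcₙ_le fun t _ => ?_
  rw [Real.norm_eq_abs, abs_of_nonneg (e_nonneg N t)]
  exact e_le_one N t

theorem tailSmall_of_le {h x : B} {C : ℝ} (hC : 0 ≤ C) (hh : 0 ≤ h)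
    (hx : star x * x ≤ C • h) : TailSmall h x := by
  intro δ hδ
  have h1 : Tendsto (fun N : ℕ => C * (4 * (1/2 : ℝ) ^ N)) atTop (𝓝 (C * (4 * 0))) :=
    ((tendsto_pow_atTop_nhds_zero_of_lt_one (by norm_num) (by norm_num)).const_mul 4).const_mul C
  rw [mul_zero, mul_zero] at h1
  obtain ⟨N, hN⟩ := (h1.eventually (Iio_mem_nhds (show (0 : ℝ) < δ ^ 2 by positivity))).exists
  refine ⟨N + 1, fun S hS ε hε => ?_⟩
  have h2 := tail_estimate x h C hC hh hx N S hS ε hε
  have h3 : ‖x * cfcₙ (FF S ε) h‖ ^ 2 ≤ δ ^ 2 := h2.trans (le_of_lt hN)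
  exact (sq_le_sq₀ (norm_nonneg _) hδ.le).1 h3

omit [PartialOrder B] [StarOrderedRing B] in
theorem tailSmall_of_closure {h x : B} (D : Set B) (hx : x ∈ closure D)
    (hD : ∀ y ∈ D, TailSmall h y) : TailSmall h x := by
  intro δ hδ
  obtain ⟨y, hy, hxy⟩ := Metric.mem_closure_iff.1 hx (δ / 4) (by positivity)
  obtain ⟨N, hN⟩ := hD y hy (δ / 2) (by positivity)
  refine ⟨N, fun S hS ε hε => ?_⟩
  have h1 := hN S hS ε hε
  have h2 : ‖(x - y) * cfcₙ (FF S ε) h‖ ≤ δ / 4 * 2 := by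
    refine (norm_mul_le _ _).trans ?_
    rw [dist_eq_norm] at hxy
    exact mul_le_mul hxy.le (norm_cfc_FF h S ε hε) (norm_nonneg _) (by positivity)
  calc ‖x * cfcₙ (FF S ε) h‖ = ‖(x - y) * cfcₙ (FF S ε) h + y * cfcₙ (FF S ε) h‖ := by
        rw [sub_mul, sub_add_cancel]
    _ ≤ δ / 4 * 2 + δ / 2 := (norm_add_le _ _).trans (add_le_add h2 h1)
    _ = δ := by ring

theorem unit_tendsto_of_le {h x : B} {C : ℝ} (hC : 0 ≤ C) (hh : 0 ≤ h)
    (hx : star x * x ≤ C • h) : Tendsto (fun N => x * cfcₙ (e N) h) atTop (𝓝 x) := by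
  rw [tendsto_iff_norm_sub_tendsto_zero]
  have h1 : Tendsto (fun N : ℕ => Real.sqrt (C * (1/2 : ℝ) ^ N)) atTop
      (𝓝 (Real.sqrt (C * 0))) := by
    apply (Real.continuous_sqrt.tendsto _).comp
    exact (tendsto_pow_atTop_nhds_zero_of_lt_one (by norm_num) (by norm_num)).const_mul C
  rw [mul_zero, Real.sqrt_zero] at h1
  refine squeeze_zero (fun N => norm_nonneg _) (fun N => ?_) h1
  rw [norm_sub_rev]
  apply Real.le_sqrt_of_sq_le
  exact unit_estimate x h C hC hh hx N

omit [PartialOrder B] [StarOrderedRing B] in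
theorem unit_tendsto_of_closure {h x : B} (D : Set B) (hx : x ∈ closure D)
    (hD : ∀ y ∈ D, Tendsto (fun N => y * cfcₙ (e N) h) atTop (𝓝 y)) :
    Tendsto (fun N => x * cfcₙ (e N) h) atTop (𝓝 x) := by
  rw [Metric.tendsto_atTop]
  intro δ hδ
  obtain ⟨y, hy, hxy⟩ := Metric.mem_closure_iff.1 hx (δ / 3) (by positivity)
  obtain ⟨N0, hN⟩ := Metric.tendsto_atTop.1 (hD y hy) (δ / 3) (by positivity)
  refine ⟨N0, fun N hN0 => ?_⟩
  have h1 := hN N hN0
  rw [dist_eq_norm] at h1 hxy ⊢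
  have h2 : ‖(x - y) * cfcₙ (e N) h‖ < δ / 3 := by
    refine lt_of_le_of_lt ((norm_mul_le _ _).trans ?_) hxy
    have := norm_cfc_e h N
    nlinarith [norm_nonneg (x - y)]
  calc ‖x * cfcₙ (e N) h - x‖
      = ‖(x - y) * cfcₙ (e N) h + (y * cfcₙ (e N) h - y) - (x - y)‖ := by
        congr 1
        rw [sub_mul]
        abel
    _ ≤ ‖(x - y) * cfcₙ (e N) h‖ + ‖y * cfcₙ (e N) h - y‖ + ‖x - y‖ :=
        (norm_sub_le _ _).trans (add_le_add_left (norm_add_le _ _) _)
    _ < δ := by linarith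

omit [PartialOrder B] [StarOrderedRing B] in
/-- The functional calculus of finite signed sums. -/
theorem cfc_FF_eq (h : B) (S : Finset ℕ) (ε : ℕ → ℝ) :
    cfcₙ (FF S ε) h = ∑ n ∈ S, ((ε n : ℝ) : ℂ) • cfcₙ (f n) h := by
  have h1 : FF S ε = ∑ n ∈ S, fun t => ε n * f n t := by
    funext t
    rw [Finset.sum_apply]
    rfl
  rw [h1, cfcₙ_sum (fun n t => ε n * f n t) h S
    (fun n _ => (continuous_const.mul (f_continuous n)).continuousOn)
    (fun n _ => by rw [f_zero, mul_zero])]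
  refine Finset.sum_congr rfl fun n _ => ?_
  rw [cfcₙ_const_mul (ε n) (f n) h (f_continuous n).continuousOn (f_zero n)]
  simp

omit [PartialOrder B] [StarOrderedRing B] in
theorem cfc_e_eq (h : B) (N : ℕ) :
    cfcₙ (e N) h = ∑ n ∈ Finset.range (N + 1), cfcₙ (f n) h * cfcₙ (f n) h := by
  have h1 : e N = ∑ n ∈ Finset.range (N + 1), fun t => f n t * f n t := by
    funext t
    rw [Finset.sum_apply, ← g_sum N t]
    exact Finset.sum_congr rfl fun n _ => (f_mul_self n t).symm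
  rw [h1, cfcₙ_sum (fun n t => f n t * f n t) h (Finset.range (N + 1))
    (fun n _ => ((f_continuous n).mul (f_continuous n)).continuousOn)
    (fun n _ => by rw [f_zero, mul_zero])]
  refine Finset.sum_congr rfl fun n _ => ?_
  rw [cfcₙ_mul (f n) (f n) h (f_continuous n).continuousOn (f_zero n)
    (f_continuous n).continuousOn (f_zero n)]

theorem cfc_f_mem {h : B} (hh : 0 ≤ h) (I : Submodule ℂ B)
    (hI : ∀ (a x : B), x ∈ I → a * x ∈ I) (hmem : h ∈ I) (n : ℕ) : cfcₙ (f n) h ∈ I := by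
  have hsa : IsSelfAdjoint h := .of_nonneg hh
  have h1 : f n = fun t => FD n t * t := by
    funext t; exact (FD_mul n t).symm
  have h2 : cfcₙ (f n) h = cfcₙ (FD n) h * h := by
    conv_lhs => rw [h1]
    rw [cfcₙ_mul (FD n) (fun t => t) h (FD_continuous n).continuousOn (FD_zero n)
      continuousOn_id rfl, cfcₙ_id' ℝ h]
  rw [h2]
  exact hI _ _ hmem

end Pos

/-- Every closed left ideal of a C*-algebra that is separable is a projective left module. -/
theorem projective_of_separable {B : Type u} [NonUnitalCStarAlgebra B] (I : Submodule ℂ B)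
    (hI : ∀ (a x : B), x ∈ I → a * x ∈ I) (hc : IsClosed (I : Set B))
    [TopologicalSpace.SeparableSpace I] : IsProjective.{u, v, u} (leftIdealAction I hI) := by
  classical
  let _ : PartialOrder B := CStarAlgebra.spectralOrder B
  have _ : StarOrderedRing B := CStarAlgebra.spectralOrderedRing B
  obtain ⟨h, hmem, hh, x, hx, hxC⟩ := exists_pos_element I hI hc
  -- density of the range in `I`
  set D : Set B := Set.range fun n => (x n : B) with hD
  have hID : ∀ a ∈ I, a ∈ closure D := by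
    intro a ha
    have h1 : (⟨a, ha⟩ : I) ∈ closure (Set.range x) := hx ⟨a, ha⟩
    have h2 := image_closure_subset_closure_image (continuous_subtype_val (p := fun y => y ∈ I))
      (Set.mem_image_of_mem Subtype.val h1)
    rw [← Set.range_comp] at h2
    exact h2
  have htail : ∀ a ∈ I, TailSmall h a := by
    intro a ha
    apply tailSmall_of_closure D (hID a ha)
    rintro y ⟨n, rfl⟩
    obtain ⟨C, hC, hle⟩ := hxC n
    exact tailSmall_of_le hC hh hle
  have hunit : ∀ a ∈ I, Tendsto (fun N => a * cfcₙ (e N) h) atTop (𝓝 a) := by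
    intro a ha
    apply unit_tendsto_of_closure D (hID a ha)
    rintro y ⟨n, rfl⟩
    obtain ⟨C, hC, hle⟩ := hxC n
    exact unit_tendsto_of_le hC hh hle
  intro X Y _ _ _ _ _ _ aX aY σ φ hσ hτ hφ
  obtain ⟨τ, hτ⟩ := hτ
  -- the elements `f_n(h)` of `I`
  let F : ℕ → I := fun n => ⟨cfcₙ (f n) h, cfc_f_mem hh I hI hmem n⟩
  let T : I →L[ℂ] X := τ.comp φ
  -- the terms of the series
  let s : I → ℕ → X := fun a n => aX.act ((a : B) * cfcₙ (f n) h) (T (F n))
  have hFsum : ∀ (S : Finset ℕ) (ε : ℕ → ℝ), (∀ n, |ε n| ≤ 1) →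
      ‖∑ n ∈ S, ((ε n : ℝ) : ℂ) • F n‖ ≤ 2 := by
    intro S ε hε
    have h1 : ((∑ n ∈ S, ((ε n : ℝ) : ℂ) • F n : I) : B) = cfcₙ (FF S ε) h := by
      rw [cfc_FF_eq]
      simp [F]
    have h2 : ‖∑ n ∈ S, ((ε n : ℝ) : ℂ) • F n‖ = ‖cfcₙ (FF S ε) h‖ := by
      rw [← h1]
      rfl
    rw [h2]
    exact norm_cfc_FF h S ε hε
  set K : ℝ := ‖aX.act‖ * (‖T‖ * 2) with hK
  have hK0 : 0 ≤ K := by positivity
  -- key bound on finite sums
  have hbound : ∀ (a : I) (S : Finset ℕ), ∃ ε : ℕ → ℝ, (∀ n, |ε n| ≤ 1) ∧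
      ‖∑ n ∈ S, s a n‖ ≤ K * ‖(a : B) * cfcₙ (FF S ε) h‖ := by
    intro a S
    obtain ⟨ε, hε, hle⟩ := exists_signs_bilin aX.act (fun n => (a : B) * cfcₙ (f n) h)
      (fun n => T (F n)) S 0 0
    refine ⟨ε, hε, ?_⟩
    have h1 : ∑ n ∈ S, ((ε n : ℝ) : ℂ) • ((a : B) * cfcₙ (f n) h) = (a : B) * cfcₙ (FF S ε) h := by
      rw [cfc_FF_eq, Finset.mul_sum]
      exact Finset.sum_congr rfl fun n _ => (mul_smul_comm _ _ _).symm
    have h2 : ∑ n ∈ S, ((ε n : ℝ) : ℂ) • T (F n) = T (∑ n ∈ S, ((ε n : ℝ) : ℂ) • F n) := by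
      rw [map_sum]
      exact Finset.sum_congr rfl fun n _ => (map_smul _ _ _).symm
    rw [h1, h2] at hle
    simp only [map_zero, zero_add] at hle
    refine hle.trans ?_
    calc ‖aX.act ((a : B) * cfcₙ (FF S ε) h) (T (∑ n ∈ S, ((ε n : ℝ) : ℂ) • F n))‖
        ≤ ‖aX.act‖ * ‖(a : B) * cfcₙ (FF S ε) h‖ * ‖T (∑ n ∈ S, ((ε n : ℝ) : ℂ) • F n)‖ :=
          aX.act.le_opNorm₂ _ _
      _ ≤ ‖aX.act‖ * ‖(a : B) * cfcₙ (FF S ε) h‖ * (‖T‖ * 2) := by
          gcongr
          refine (T.le_opNorm _).trans ?_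
          gcongr
          exact hFsum S ε hε
      _ = K * ‖(a : B) * cfcₙ (FF S ε) h‖ := by rw [hK]; ring
  have hbound2 : ∀ (a : I) (S : Finset ℕ), ‖∑ n ∈ S, s a n‖ ≤ K * 2 * ‖a‖ := by
    intro a S
    obtain ⟨ε, hε, hle⟩ := hbound a S
    refine hle.trans ?_
    have h1 : ‖(a : B) * cfcₙ (FF S ε) h‖ ≤ ‖a‖ * 2 := by
      refine (norm_mul_le _ _).trans ?_
      exact mul_le_mul_of_nonneg_left (norm_cfc_FF h S ε hε) (norm_nonneg _)
    calc K * ‖(a : B) * cfcₙ (FF S ε) h‖ ≤ K * (‖a‖ * 2) := by gcongr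
      _ = K * 2 * ‖a‖ := by ring
  have hsummable : ∀ a : I, Summable (s a) := by
    intro a
    rw [summable_iff_vanishing_norm]
    intro δ hδ
    obtain ⟨N, hN⟩ := htail a a.2 (δ / (K + 1) / 2) (by positivity)
    refine ⟨Finset.range N, fun S hS => ?_⟩
    obtain ⟨ε, hε, hle⟩ := hbound a S
    have h1 : ∀ n ∈ S, N ≤ n := by
      intro n hn
      by_contra hcon
      exact Finset.disjoint_left.1 hS hn (Finset.mem_range.2 (by omega))
    have h2 := hN S h1 ε hε
    calc ‖∑ n ∈ S, s a n‖ ≤ K * ‖(a : B) * cfcₙ (FF S ε) h‖ := hle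
      _ ≤ K * (δ / (K + 1) / 2) := by gcongr
      _ < δ := by
        have h3 : K * (δ / (K + 1) / 2) = (K / (K + 1)) * (δ / 2) := by ring
        rw [h3]
        have h4 : K / (K + 1) ≤ 1 := by
          rw [div_le_one (by positivity)]
          linarith
        nlinarith
  -- the lift
  let ψ0 : I →ₗ[ℂ] X :=
    { toFun := fun a => ∑' n, s a n
      map_add' := by
        intro a b
        rw [← (hsummable a).tsum_add (hsummable b)]
        refine tsum_congr fun n => ?_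
        show aX.act (((a : B) + (b : B)) * cfcₙ (f n) h) (T (F n)) = _
        rw [add_mul, map_add, add_apply]
      map_smul' := by
        intro c a
        rw [RingHom.id_apply, ← (hsummable a).tsum_const_smul c]
        refine tsum_congr fun n => ?_
        show aX.act ((c • (a : B)) * cfcₙ (f n) h) (T (F n)) = _
        rw [smul_mul_assoc, map_smul, smul_apply] }
  have hψ0 : ∀ a, ψ0 a = ∑' n, s a n := fun a => rfl
  let ψ : I →L[ℂ] X := ψ0.mkContinuous (K * 2) (by
    intro a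
    rw [hψ0]
    have h1 : Tendsto (fun S : Finset ℕ => ‖∑ n ∈ S, s a n‖) atTop (𝓝 ‖∑' n, s a n‖) :=
      (hsummable a).hasSum.norm
    exact le_of_tendsto' h1 fun S => hbound2 a S)
  have hψ : ∀ a, ψ a = ∑' n, s a n := fun a => rfl
  refine ⟨ψ, ?_, ?_⟩
  · intro b a
    rw [hψ, hψ, (aX.act b).map_tsum (hsummable a)]
    refine tsum_congr fun n => ?_
    show aX.act ((b * (a : B)) * cfcₙ (f n) h) (T (F n)) = _
    rw [mul_assoc, aX.act_mul]
  · intro a
    rw [hψ, σ.map_tsum (hsummable a)]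
    have h1 : ∀ n, σ (s a n) = φ ⟨(a : B) * (cfcₙ (f n) h * cfcₙ (f n) h),
        by rw [← mul_assoc]; exact hI _ _ (F n).2⟩ := by
      intro n
      show σ (aX.act ((a : B) * cfcₙ (f n) h) (τ (φ (F n)))) = _
      rw [hσ, hτ, ← hφ]
      congr 1
      apply Subtype.ext
      rw [leftIdealAction_apply]
      exact mul_assoc _ _ _
    have h2 : Summable fun n => σ (s a n) := (hsummable a).map σ σ.continuous
    have h3 : Tendsto (fun N => ∑ n ∈ Finset.range (N + 1), σ (s a n)) atTop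
        (𝓝 (∑' n, σ (s a n))) :=
      (tendsto_add_atTop_iff_nat 1).2 h2.hasSum.tendsto_sum_nat
    have h4 : ∀ N, ∑ n ∈ Finset.range (N + 1), σ (s a n) =
        φ ⟨(a : B) * cfcₙ (e N) h, by
          rw [cfc_e_eq, Finset.mul_sum]
          refine I.sum_mem fun n _ => ?_
          rw [← mul_assoc]; exact hI _ _ (F n).2⟩ := by
      intro N
      simp only [h1]
      rw [← map_sum]
      congr 1
      apply Subtype.ext
      rw [AddSubmonoidClass.coe_finsetSum]
      simp only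
      rw [cfc_e_eq, Finset.mul_sum]
    simp only [h4] at h3
    have h5 : Tendsto (fun N => φ ⟨(a : B) * cfcₙ (e N) h, by
          rw [cfc_e_eq, Finset.mul_sum]
          refine I.sum_mem fun n _ => ?_
          rw [← mul_assoc]; exact hI _ _ (F n).2⟩) atTop (𝓝 (φ a)) := by
      apply (φ.continuous.tendsto a).comp
      rw [tendsto_subtype_rng]
      exact hunit a a.2
    exact tendsto_nhds_unique h3 h5

/-- Separable C*-algebras are hereditary. -/
theorem hereditary_of_separable (B : Type u) [NonUnitalCStarAlgebra B]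
    [TopologicalSpace.SeparableSpace B] : IsHereditary.{u, v} B := by
  intro I hI hc
  exact projective_of_separable I hI hc

end

end Pool.Agent.Helper40.Hered
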